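import Pool.Agent.InjP.Defs

/-!
# An Auerbach system for finitely many linear forms
-/

namespace Pool.Agent.RedF

open Finset Pool.Agent.InjP

private lemma continuous_pn {p : ℝ} (hp : 1 ≤ p) {d : ℕ} :
    Continuous fun x : Fin d → ℝ => pn p x := by
  unfold pn
  have h0 : (0 : ℝ) ≤ p := by linarith
  refine (continuous_finset_sum _ fun i _ => ?_).rpow_const fun _ => Or.inr (by positivity)
  exact (continuous_abs.comp (continuous_apply i)).rpow_const fun _ => Or.inr h0

private lemma isCompact_balls {p : ℝ} (hp : 1 ≤ p) (k d : ℕ) :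
    IsCompact {y : Fin k → Fin d → ℝ | ∀ j, pn p (y j) ≤ 1} := by
  have h1 : IsCompact (Set.univ.pi fun _ : Fin k => Set.univ.pi fun _ : Fin d =>
      Set.Icc (-1 : ℝ) 1) := isCompact_univ_pi fun _ => isCompact_univ_pi fun _ => isCompact_Icc
  refine h1.of_isClosed_subset ?_ ?_
  · have : {y : Fin k → Fin d → ℝ | ∀ j, pn p (y j) ≤ 1} =
        ⋂ j, {y : Fin k → Fin d → ℝ | pn p (y j) ≤ 1} := by
      ext y; simp
    rw [this]
    exact isClosed_iInter fun j =>
      isClosed_le ((continuous_pn hp).comp (continuous_apply j)) continuous_const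
  · intro y hy j _ l _
    exact abs_le.1 ((abs_le_pn (by linarith) (y j) l).trans (hy j))

/-- the matrix of the values of the forms `b i` at the points `y j` -/
private def mat {k d : ℕ} (b y : Fin k → Fin d → ℝ) : Matrix (Fin k) (Fin k) ℝ :=
  Matrix.of fun i j => ∑ l, b i l * y j l

private lemma mat_update {k d : ℕ} (b y : Fin k → Fin d → ℝ) (j : Fin k) (z : Fin d → ℝ) :
    mat b (Function.update y j z) = (mat b y).updateCol j (fun i => ∑ l, b i l * z l) := by
  ext i j'
  rcases eq_or_ne j' j with rfl | h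
  · simp [mat]
  · simp [mat, h]

private lemma det_gram_ne {k d : ℕ} {b : Fin k → Fin d → ℝ} (hb : LinearIndependent ℝ b) :
    (mat b b).det ≠ 0 := by
  intro h
  obtain ⟨v, hv, h0⟩ := Matrix.exists_mulVec_eq_zero_iff.2 h
  apply hv
  have h1 : ∑ l, (∑ i, v i * b i l) ^ 2 = 0 := by
    have h2 : ∑ i, v i * ((mat b b).mulVec v) i = 0 := by
      rw [h0]; simp
    rw [← h2]
    simp only [Matrix.mulVec, dotProduct, mat, Matrix.of_apply, sq, Finset.sum_mul_sum,
      Finset.mul_sum, Finset.sum_mul]
    rw [Finset.sum_comm]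
    refine Finset.sum_congr rfl fun i _ => ?_
    rw [Finset.sum_comm]
    refine Finset.sum_congr rfl fun j _ => Finset.sum_congr rfl fun l _ => by ring
  have h3 : ∀ l, ∑ i, v i * b i l = 0 := by
    intro l
    have := (Finset.sum_eq_zero_iff_of_nonneg (fun l _ => sq_nonneg _)).1 h1 l (Finset.mem_univ l)
    exact pow_eq_zero_iff (two_ne_zero) |>.1 this
  have h4 : ∑ i, v i • b i = 0 := by
    ext l
    simpa using h3 l
  funext i
  exact Fintype.linearIndependent_iff.1 hb v h4 i

private lemma continuous_det_mat {k d : ℕ} (b : Fin k → Fin d → ℝ) :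
    Continuous fun y : Fin k → Fin d → ℝ => |(mat b y).det| := by
  have h : Continuous fun y : Fin k → Fin d → ℝ => mat b y := by
    refine continuous_pi fun i => continuous_pi fun j => ?_
    have h2 : Continuous fun y : Fin k → Fin d → ℝ => ∑ l, b i l * y j l :=
      continuous_finset_sum _ fun l _ =>
        continuous_const.mul ((continuous_apply l).comp (continuous_apply j))
    exact h2
  exact continuous_abs.comp h.matrix_det

private lemma auerbach_indep {p : ℝ} (hp : 1 ≤ p) {d k : ℕ} {b : Fin k → Fin d → ℝ}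
    (hb : LinearIndependent ℝ b) :
    ∃ u y : Fin k → Fin d → ℝ, (∀ j, pn p (y j) ≤ 1) ∧
      (∀ j z, pn p z ≤ 1 → |∑ l, u j l * z l| ≤ 1) ∧
      ∀ (z : Fin d → ℝ) (i : Fin k),
        ∑ l, b i l * (∑ j, (∑ l', u j l' * z l') • y j) l = ∑ l, b i l * z l := by
  have hp0 : 0 < p := by linarith
  obtain ⟨y, hy, hmax⟩ := (isCompact_balls hp k d).exists_isMaxOn
    ⟨0, fun j => by
      have : pn p ((0 : Fin k → Fin d → ℝ) j) = 0 := pn_zero hp0
      rw [this]; norm_num⟩
    (continuous_det_mat b).continuousOn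
  have hmax' : ∀ y' : Fin k → Fin d → ℝ, (∀ j, pn p (y' j) ≤ 1) →
      |(mat b y').det| ≤ |(mat b y).det| := fun y' h => hmax h
  have hpn0 : ∀ x : Fin d → ℝ, 0 ≤ pn p x := fun x => by unfold pn; positivity
  have hdet : (mat b y).det ≠ 0 := by
    set c : ℝ := (1 + ∑ j, pn p (b j))⁻¹ with hc
    have hs : 0 < 1 + ∑ j, pn p (b j) := by
      have := Finset.sum_nonneg fun j (_ : j ∈ Finset.univ) => hpn0 (b j)
      linarith
    have hc0 : 0 < c := inv_pos.2 hs
    have h1 := hmax' (fun j => c • b j) (fun j => by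
      rw [pn_smul hp0, abs_of_pos hc0, hc, inv_mul_le_iff₀ hs, mul_one]
      have := Finset.single_le_sum (f := fun j => pn p (b j)) (fun j _ => hpn0 (b j))
        (Finset.mem_univ j)
      linarith)
    have h2 : mat b (fun j => c • b j) = c • mat b b := by
      ext i j
      simp only [mat, Matrix.of_apply, Matrix.smul_apply, Pi.smul_apply, smul_eq_mul,
        Finset.mul_sum]
      exact Finset.sum_congr rfl fun l _ => by ring
    rw [h2, Matrix.det_smul, abs_mul] at h1
    intro h0
    rw [h0, abs_zero] at h1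
    have h3 : 0 < |c ^ Fintype.card (Fin k)| * |(mat b b).det| :=
      mul_pos (abs_pos.2 (pow_ne_zero _ hc0.ne')) (abs_pos.2 (det_gram_ne hb))
    linarith
  have hval : ∀ (j : Fin k) (z : Fin d → ℝ),
      ∑ l, ((mat b y).det⁻¹ * (mat b y).cramer (fun i => b i l) j) * z l =
        (mat b y).det⁻¹ * (mat b y).cramer (fun i => ∑ l, b i l * z l) j := by
    intro j z
    have h1 : (fun i => ∑ l, b i l * z l) = ∑ l, z l • (fun i => b i l) := by
      funext i
      simp only [Finset.sum_apply, Pi.smul_apply, smul_eq_mul]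
      exact Finset.sum_congr rfl fun l _ => by ring
    rw [h1, map_sum]
    simp only [map_smul, Finset.sum_apply, Pi.smul_apply, smul_eq_mul, Finset.mul_sum]
    exact Finset.sum_congr rfl fun l _ => by ring
  refine ⟨fun j l => (mat b y).det⁻¹ * (mat b y).cramer (fun i => b i l) j, y, hy, ?_, ?_⟩
  · intro j z hz
    rw [hval, Matrix.cramer_apply, ← mat_update, abs_mul, abs_inv,
      inv_mul_le_iff₀ (abs_pos.2 hdet), mul_one]
    refine hmax' _ fun j' => ?_
    rcases eq_or_ne j' j with rfl | h
    · simpa using hz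
    · simpa [h] using hy j'
  · intro z i
    simp only [hval]
    have h1 := congrFun (Matrix.mulVec_cramer (mat b y) (fun i => ∑ l, b i l * z l)) i
    have h2 : ∑ l, b i l * z l = (mat b y).det⁻¹ *
        ((mat b y).mulVec ((mat b y).cramer fun i => ∑ l, b i l * z l)) i := by
      rw [h1, Pi.smul_apply, smul_eq_mul, inv_mul_cancel_left₀ hdet]
    rw [h2]
    simp only [Matrix.mulVec, dotProduct, Finset.sum_apply, Pi.smul_apply, smul_eq_mul,
      Finset.mul_sum]
    rw [Finset.sum_comm]
    refine Finset.sum_congr rfl fun j _ => ?_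
    simp only [mat, Matrix.of_apply, Finset.sum_mul, Finset.mul_sum]
    refine Finset.sum_congr rfl fun l _ => ?_
    ring

/-- An Auerbach system for the forms `e i`: at most `K` points `y j` of the unit ball and forms
`u j` bounded by `1` on it, such that `z` and `∑ j, u j (z) • y j` have the same values `e i`. -/
theorem auerbach {p : ℝ} (hp : 1 ≤ p) {d K : ℕ} (e : Fin K → Fin d → ℝ) :
    ∃ (k : ℕ) (u y : Fin k → Fin d → ℝ), k ≤ K ∧ (∀ j, pn p (y j) ≤ 1) ∧
      (∀ j z, pn p z ≤ 1 → |∑ l, u j l * z l| ≤ 1) ∧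
      ∀ (z : Fin d → ℝ) (i : Fin K),
        ∑ l, e i l * (∑ j, (∑ l', u j l' * z l') • y j) l = ∑ l, e i l * z l := by
  obtain ⟨κ, a, ha, hspan, hli⟩ := exists_linearIndependent' ℝ e
  have : Finite κ := Finite.of_injective a ha
  let _ : Fintype κ := Fintype.ofFinite κ
  set k := Fintype.card κ with hk
  let f : Fin k ≃ κ := (Fintype.equivFin κ).symm
  have hkK : k ≤ K := by
    have := Fintype.card_le_of_injective a ha
    rwa [Fintype.card_fin] at this
  have hb : LinearIndependent ℝ (fun i : Fin k => e (a (f i))) :=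
    hli.comp f f.injective
  obtain ⟨u, y, hy, hu, h⟩ := auerbach_indep hp hb
  refine ⟨k, u, y, hkK, hy, hu, fun z i => ?_⟩
  set X : Fin d → ℝ := ∑ j, (∑ l', u j l' * z l') • y j with hX
  let L : (Fin d → ℝ) →ₗ[ℝ] ℝ :=
    { toFun := fun w => ∑ l, w l * X l - ∑ l, w l * z l
      map_add' := by
        intro w w'
        simp only [Pi.add_apply, add_mul, Finset.sum_add_distrib]
        ring
      map_smul' := by
        intro c w
        simp only [Pi.smul_apply, smul_eq_mul, mul_assoc, ← Finset.mul_sum, RingHom.id_apply]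
        ring }
  have h1 : Submodule.span ℝ (Set.range e) ≤ LinearMap.ker L := by
    rw [← hspan, Submodule.span_le]
    rintro _ ⟨t, rfl⟩
    obtain ⟨i, rfl⟩ := f.surjective t
    exact sub_eq_zero.2 (h z i)
  have h2 := h1 (Submodule.subset_span ⟨i, rfl⟩)
  exact sub_eq_zero.1 h2

end Pool.Agent.RedF
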