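import Pool.Agent.InjP.Defs

set_option autoImplicit false

/-!
The contraction principle for Gaussian sums of functions.
-/

namespace Pool.Agent.RedF

open Finset MeasureTheory Pool.Agent.InjP
open Pool.Agent.SymASQ (sg)

/-- bounded functions -/
def Bd {X : Type*} (f : X → ℝ) : Prop := ∃ M : ℝ, ∀ x, |f x| ≤ M

section
variable {X : Type*}

lemma Bd.add {f h : X → ℝ} (hf : Bd f) (hh : Bd h) : Bd (fun x => f x + h x) := by
  obtain ⟨M, hM⟩ := hf
  obtain ⟨N, hN⟩ := hh
  exact ⟨M + N, fun x => (abs_add_le _ _).trans (add_le_add (hM x) (hN x))⟩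

lemma Bd.smul {f : X → ℝ} (hf : Bd f) (c : ℝ) : Bd (fun x => c * f x) := by
  obtain ⟨M, hM⟩ := hf
  exact ⟨|c| * M, fun x => by
    rw [abs_mul]
    exact mul_le_mul_of_nonneg_left (hM x) (abs_nonneg _)⟩

lemma Bd.sub {f h : X → ℝ} (hf : Bd f) (hh : Bd h) : Bd (fun x => f x - h x) := by
  have h1 := hf.add (hh.smul (-1))
  have e : (fun x => f x + -1 * h x) = fun x => f x - h x := by
    funext x
    ring
  rwa [e] at h1

lemma Bd.mul {f h : X → ℝ} (hf : Bd f) (hh : Bd h) : Bd (fun x => f x * h x) := by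
  obtain ⟨M, hM⟩ := hf
  obtain ⟨N, hN⟩ := hh
  exact ⟨M * N, fun x => by
    rw [abs_mul]
    exact mul_le_mul (hM x) (hN x) (abs_nonneg _) ((abs_nonneg _).trans (hM x))⟩

lemma Bd.sum {n : ℕ} {f : Fin n → X → ℝ} (hf : ∀ i, Bd (f i)) (g : Fin n → ℝ) :
    Bd (fun x => ∑ i, g i * f i x) := by
  choose M hM using hf
  exact ⟨∑ i, |g i| * M i, fun x => (Finset.abs_sum_le_sum_abs _ _).trans
    (Finset.sum_le_sum fun i _ => by
      rw [abs_mul]
      exact mul_le_mul_of_nonneg_left (hM i x) (abs_nonneg _))⟩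

lemma Bd.bddAbove {f : X → ℝ} (hf : Bd f) : BddAbove (Set.range f) := by
  obtain ⟨M, hM⟩ := hf
  refine ⟨M, ?_⟩
  rintro _ ⟨x, rfl⟩
  exact (le_abs_self _).trans (hM x)

lemma Bd.abs {f : X → ℝ} (hf : Bd f) : Bd (fun x => |f x|) := by
  obtain ⟨M, hM⟩ := hf
  exact ⟨M, fun x => by rw [abs_abs]; exact hM x⟩

variable [Nonempty X]

/-- the two point lemma -/
lemma two_point {U a b : X → ℝ} (hU : Bd U) (ha : Bd a)
    (h : ∀ x y, |b x - b y| ≤ |a x - a y|) :
    (⨆ x, (U x + b x)) + (⨆ x, (U x - b x)) ≤ (⨆ x, (U x + a x)) + ⨆ x, (U x - a x) := by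
  have hp : ∀ x, U x + a x ≤ ⨆ x, (U x + a x) := fun x => le_ciSup (hU.add ha).bddAbove x
  have hm : ∀ x, U x - a x ≤ ⨆ x, (U x - a x) := fun x => le_ciSup (hU.sub ha).bddAbove x
  have h1 : ∀ x y, (U x + b x) + (U y - b y) ≤ (⨆ x, (U x + a x)) + ⨆ x, (U x - a x) := by
    intro x y
    have h2 : b x - b y ≤ |a x - a y| := (le_abs_self _).trans (h x y)
    rcases abs_cases (a x - a y) with h3 | h3
    · linarith [hp x, hm y]
    · linarith [hp y, hm x]
  have h2 : ∀ y, (⨆ x, (U x + b x)) ≤
      ((⨆ x, (U x + a x)) + ⨆ x, (U x - a x)) - (U y - b y) :=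
    fun y => ciSup_le fun x => by linarith [h1 x y]
  have h3 : (⨆ x, (U x - b x)) ≤
      ((⨆ x, (U x + a x)) + ⨆ x, (U x - a x)) - ⨆ x, (U x + b x) :=
    ciSup_le fun y => by linarith [h2 y]
  linarith

/-- the contraction principle for random signs -/
lemma rad_contr : ∀ (n : ℕ) (U : X → ℝ) (a b : Fin n → X → ℝ), Bd U → (∀ i, Bd (a i)) →
    (∀ i, Bd (b i)) → (∀ i x y, |b i x - b i y| ≤ |a i x - a i y|) →
    ∑ e : Fin n → Bool, (⨆ x, (U x + ∑ i, sg (e i) * b i x)) ≤
      ∑ e : Fin n → Bool, ⨆ x, (U x + ∑ i, sg (e i) * a i x) := by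
  intro n
  induction n with
  | zero =>
    intro U a b _ _ _ _
    simp
  | succ n ih =>
    intro U a b hU ha hb h
    have key : ∀ c : Fin (n + 1) → X → ℝ,
        ∑ e : Fin (n + 1) → Bool, (⨆ x, (U x + ∑ i, sg (e i) * c i x)) =
        ∑ e0 : Bool, ∑ e : Fin n → Bool,
          ⨆ x, ((U x + sg e0 * c 0 x) + ∑ i, sg (e i) * c (Fin.succ i) x) := by
      intro c
      rw [← (Fin.consEquiv (fun _ : Fin (n + 1) => Bool)).sum_comp, Fintype.sum_prod_type]
      refine Finset.sum_congr rfl fun e0 _ => Finset.sum_congr rfl fun e _ => ?_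
      refine iSup_congr fun x => ?_
      rw [Fin.sum_univ_succ]
      simp only [Fin.consEquiv_apply, Fin.cons_zero, Fin.cons_succ]
      ring
    rw [key b, key a]
    have h1 : ∑ e0 : Bool, ∑ e : Fin n → Bool,
          (⨆ x, ((U x + sg e0 * b 0 x) + ∑ i, sg (e i) * b (Fin.succ i) x)) ≤
        ∑ e0 : Bool, ∑ e : Fin n → Bool,
          ⨆ x, ((U x + sg e0 * b 0 x) + ∑ i, sg (e i) * a (Fin.succ i) x) :=
      Finset.sum_le_sum fun e0 _ => ih _ _ _ (hU.add ((hb 0).smul _)) (fun i => ha _)
        (fun i => hb _) fun i => h _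
    refine h1.trans ?_
    rw [Finset.sum_comm, Finset.sum_comm (s := (Finset.univ : Finset Bool))]
    refine Finset.sum_le_sum fun e _ => ?_
    rw [Fintype.sum_bool, Fintype.sum_bool]
    have h2 := two_point (U := fun x => U x + ∑ i, sg (e i) * a (Fin.succ i) x) (a := a 0)
      (b := b 0) (hU.add (Bd.sum (fun i => ha (Fin.succ i)) _)) (ha 0) (h 0)
    have e1 : ∀ c : X → ℝ, (⨆ x, (U x + sg true * c x + ∑ i, sg (e i) * a (Fin.succ i) x)) +
        (⨆ x, (U x + sg false * c x + ∑ i, sg (e i) * a (Fin.succ i) x)) =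
        (⨆ x, ((U x + ∑ i, sg (e i) * a (Fin.succ i) x) + c x)) +
        ⨆ x, ((U x + ∑ i, sg (e i) * a (Fin.succ i) x) - c x) := by
      intro c
      simp only [sg, if_true, Bool.false_eq_true, if_false]
      refine congrArg₂ (· + ·) (iSup_congr fun x => by ring) (iSup_congr fun x => by ring)
    rw [e1, e1]
    exact h2

end

/-! ### Gaussian sums -/

section
variable {X : Type*} [Nonempty X] {n : ℕ}

/-- `sup` of the sum -/
noncomputable def SU (f : Fin n → X → ℝ) (g : Fin n → ℝ) : ℝ := ⨆ x, ∑ i, g i * f i x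

/-- `sup` of the absolute value of the sum -/
noncomputable def AB (f : Fin n → X → ℝ) (g : Fin n → ℝ) : ℝ := ⨆ x, |∑ i, g i * f i x|

lemma SU_lip {f : Fin n → X → ℝ} {M : Fin n → ℝ} (hM : ∀ i x, |f i x| ≤ M i)
    (g g' : Fin n → ℝ) : SU f g ≤ SU f g' + ∑ i, |g i - g' i| * M i := by
  refine ciSup_le fun x => ?_
  have h1 : ∑ i, g' i * f i x ≤ SU f g' :=
    le_ciSup (f := fun x => ∑ i, g' i * f i x) (Bd.sum (fun i => ⟨M i, hM i⟩) g').bddAbove x
  have h2 : ∑ i, g i * f i x = ∑ i, g' i * f i x + ∑ i, (g i - g' i) * f i x := by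
    rw [← Finset.sum_add_distrib]
    exact Finset.sum_congr rfl fun i _ => by ring
  have h3 : ∑ i, (g i - g' i) * f i x ≤ ∑ i, |g i - g' i| * M i :=
    Finset.sum_le_sum fun i _ => (le_abs_self _).trans (by
      rw [abs_mul]
      exact mul_le_mul_of_nonneg_left (hM i x) (abs_nonneg _))
  rw [h2]
  linarith

lemma AB_lip {f : Fin n → X → ℝ} {M : Fin n → ℝ} (hM : ∀ i x, |f i x| ≤ M i)
    (g g' : Fin n → ℝ) : AB f g ≤ AB f g' + ∑ i, |g i - g' i| * M i := by
  refine ciSup_le fun x => ?_
  have h1 : |∑ i, g' i * f i x| ≤ AB f g' :=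
    le_ciSup (f := fun x => |∑ i, g' i * f i x|)
      (Bd.sum (fun i => ⟨M i, hM i⟩) g').abs.bddAbove x
  have h2 : ∑ i, g i * f i x = ∑ i, g' i * f i x + ∑ i, (g i - g' i) * f i x := by
    rw [← Finset.sum_add_distrib]
    exact Finset.sum_congr rfl fun i _ => by ring
  have h3 : |∑ i, (g i - g' i) * f i x| ≤ ∑ i, |g i - g' i| * M i :=
    (Finset.abs_sum_le_sum_abs _ _).trans (Finset.sum_le_sum fun i _ => by
      rw [abs_mul]
      exact mul_le_mul_of_nonneg_left (hM i x) (abs_nonneg _))
  rw [h2]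
  exact (abs_add_le _ _).trans (add_le_add h1 h3)

lemma continuous_of_lip {F : (Fin n → ℝ) → ℝ} {M : Fin n → ℝ}
    (h : ∀ g g', F g ≤ F g' + ∑ i, |g i - g' i| * M i) : Continuous F := by
  rw [continuous_iff_continuousAt]
  intro g'
  rw [ContinuousAt, tendsto_iff_dist_tendsto_zero]
  have hlim : Filter.Tendsto (fun g : Fin n → ℝ => ∑ i, |g i - g' i| * M i)
      (nhds g') (nhds 0) := by
    have hc : Continuous (fun g : Fin n → ℝ => ∑ i, |g i - g' i| * M i) := by
      fun_prop
    have := hc.tendsto g'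
    simpa using this
  refine squeeze_zero (fun _ => dist_nonneg) (fun g => ?_) hlim
  rw [Real.dist_eq, abs_le]
  have h1 := h g g'
  have h2 := h g' g
  have e : ∑ i, |g' i - g i| * M i = ∑ i, |g i - g' i| * M i :=
    Finset.sum_congr rfl fun i _ => by rw [abs_sub_comm]
  rw [e] at h2
  constructor <;> linarith

lemma integrable_of_lip {F : (Fin n → ℝ) → ℝ} {M : Fin n → ℝ}
    (h : ∀ g g', F g ≤ F g' + ∑ i, |g i - g' i| * M i) : Integrable F (gauss n) := by
  have hb : Integrable (fun g : Fin n → ℝ => ∑ i, |g i| * M i + |F 0|) (gauss n) :=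
    (integrable_finsetSum _ fun i _ => (integrable_eval_abs i).mul_const _).add
      (integrable_const _)
  refine hb.mono' (continuous_of_lip h).aestronglyMeasurable (Filter.Eventually.of_forall
    fun g => ?_)
  rw [Real.norm_eq_abs]
  have h1 := h g 0
  have h2 := h 0 g
  simp only [Pi.zero_apply, sub_zero, zero_sub, abs_neg] at h1 h2
  have h3 := neg_abs_le (F 0)
  have h4 := le_abs_self (F 0)
  rw [abs_le]
  constructor <;> linarith

lemma integral_flip {F : (Fin n → ℝ) → ℝ} (hF : Continuous F) (e : Fin n → Bool) :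
    ∫ g, F (fun i => sg (e i) * g i) ∂gauss n = ∫ g, F g ∂gauss n := by
  have h := measurePreserving_sign (n := n) e
  have h' := integral_map (μ := gauss n) (φ := fun g : Fin n → ℝ => fun i => sg (e i) * g i)
    h.measurable.aemeasurable (f := F) hF.aestronglyMeasurable
  rw [h.map_eq] at h'
  exact h'.symm

/-- the contraction principle for Gaussian sums, one sided -/
theorem SU_contr {a b : Fin n → X → ℝ} (ha : ∀ i, Bd (a i)) (hb : ∀ i, Bd (b i))
    (h : ∀ i x y, |b i x - b i y| ≤ |a i x - a i y|) :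
    ∫ g, SU b g ∂gauss n ≤ ∫ g, SU a g ∂gauss n := by
  have hsum : ∀ c : Fin n → X → ℝ, (∀ i, Bd (c i)) → (2 : ℝ) ^ n * ∫ g, SU c g ∂gauss n =
      ∫ g, ∑ e : Fin n → Bool, SU c (fun i => sg (e i) * g i) ∂gauss n ∧
      Integrable (fun g => ∑ e : Fin n → Bool, SU c (fun i => sg (e i) * g i)) (gauss n) := by
    intro c hc
    choose M hM using hc
    have hL := SU_lip hM
    have hi : ∀ e : Fin n → Bool, Integrable (fun g : Fin n → ℝ =>
        SU c (fun i => sg (e i) * g i)) (gauss n) := fun e =>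
      (measurePreserving_sign (n := n) e).integrable_comp_of_integrable (integrable_of_lip hL)
    refine ⟨?_, integrable_finsetSum _ fun e _ => hi e⟩
    rw [integral_finsetSum _ fun e _ => hi e,
      Finset.sum_congr rfl fun e _ => integral_flip (continuous_of_lip hL) e]
    simp
  obtain ⟨ea, ia⟩ := hsum a ha
  obtain ⟨eb, ib⟩ := hsum b hb
  have h1 : (2 : ℝ) ^ n * ∫ g, SU b g ∂gauss n ≤ 2 ^ n * ∫ g, SU a g ∂gauss n := by
    rw [ea, eb]
    refine integral_mono ib ia fun g => ?_
    have h2 := rad_contr n (fun _ : X => (0 : ℝ)) (fun i x => g i * a i x)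
      (fun i x => g i * b i x) ⟨0, fun x => by simp⟩ (fun i => (ha i).smul _)
      (fun i => (hb i).smul _) (fun i x y => by
        rw [← mul_sub, ← mul_sub, abs_mul, abs_mul]
        exact mul_le_mul_of_nonneg_left (h i x y) (abs_nonneg _))
    simp only [zero_add] at h2
    simp only [SU]
    have e2 : ∀ c : Fin n → X → ℝ, ∀ e : Fin n → Bool,
        (⨆ x, ∑ i, sg (e i) * (g i * c i x)) = ⨆ x, ∑ i, sg (e i) * g i * c i x := fun c e =>
      iSup_congr fun x => Finset.sum_congr rfl fun i _ => by ring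
    rw [Finset.sum_congr rfl fun e _ => e2 b e, Finset.sum_congr rfl fun e _ => e2 a e] at h2
    exact h2
  exact le_of_mul_le_mul_left h1 (by positivity)

/-- expected supremum of the absolute value -/
noncomputable def EA (f : Fin n → X → ℝ) : ℝ := ∫ g, AB f g ∂gauss n

lemma AB_nonneg (f : Fin n → X → ℝ) (g : Fin n → ℝ) : 0 ≤ AB f g :=
  Real.iSup_nonneg fun _ => abs_nonneg _

lemma SU_le_AB {f : Fin n → X → ℝ} (hf : ∀ i, Bd (f i)) (g : Fin n → ℝ) : SU f g ≤ AB f g :=
  ciSup_le fun x => (le_abs_self _).trans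
    (le_ciSup (f := fun x => |∑ i, g i * f i x|) (Bd.sum hf g).abs.bddAbove x)

/-- the contraction principle for Gaussian sums -/
theorem EA_contr {a b : Fin n → X → ℝ} (ha : ∀ i, Bd (a i)) (hb : ∀ i, Bd (b i))
    (h : ∀ i x y, |b i x - b i y| ≤ |a i x - a i y|) (x0 : X) (h0 : ∀ i, b i x0 = 0) :
    EA b ≤ 2 * EA a := by
  have hbS : ∀ g x, ∑ i, g i * b i x ≤ SU b g := fun g x =>
    le_ciSup (f := fun x => ∑ i, g i * b i x) (Bd.sum hb g).bddAbove x
  have h1 : ∀ g, AB b g ≤ SU b g + SU b (fun i => sg false * g i) := by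
    intro g
    refine ciSup_le fun x => ?_
    have h2 : 0 ≤ SU b g := by
      have := hbS g x0
      simpa [h0] using this
    have h3 : 0 ≤ SU b (fun i => sg false * g i) := by
      have := hbS (fun i => sg false * g i) x0
      simpa [h0] using this
    have h4 := hbS g x
    have h5 := hbS (fun i => sg false * g i) x
    have e5 : ∑ i, sg false * g i * b i x = - ∑ i, g i * b i x := by
      rw [← Finset.sum_neg_distrib]
      refine Finset.sum_congr rfl fun i _ => ?_
      simp [sg]
    rw [e5] at h5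
    exact abs_le.2 ⟨by linarith, by linarith⟩
  have hb' := hb
  have ha' := ha
  choose N hN using ha'
  choose M hM using hb'
  have hLb := SU_lip hM
  have i1 : Integrable (fun g => SU b g) (gauss n) := integrable_of_lip hLb
  have i2 : Integrable (fun g : Fin n → ℝ => SU b (fun i => sg false * g i)) (gauss n) :=
    (measurePreserving_sign (n := n) fun _ => false).integrable_comp_of_integrable i1
  have h2 : EA b ≤ ∫ g, (SU b g + SU b (fun i => sg false * g i)) ∂gauss n :=
    integral_mono (integrable_of_lip (AB_lip hM)) (i1.add i2) h1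
  rw [integral_add i1 i2, integral_flip (continuous_of_lip hLb) (fun _ => false)] at h2
  have h3 := SU_contr ha hb h
  have h4 : ∫ g, SU a g ∂gauss n ≤ EA a :=
    integral_mono (integrable_of_lip (SU_lip hN)) (integrable_of_lip (AB_lip hN))
      fun g => SU_le_AB ha g
  linarith

lemma EA_add_le {f h : Fin n → X → ℝ} (hf : ∀ i, Bd (f i)) (hh : ∀ i, Bd (h i)) :
    EA (fun i x => f i x + h i x) ≤ EA f + EA h := by
  have hs : ∀ i, Bd (fun x => f i x + h i x) := fun i => (hf i).add (hh i)
  have h1 : ∀ g, AB (fun i x => f i x + h i x) g ≤ AB f g + AB h g := by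
    intro g
    refine ciSup_le fun x => ?_
    have e : ∑ i, g i * (f i x + h i x) = ∑ i, g i * f i x + ∑ i, g i * h i x := by
      rw [← Finset.sum_add_distrib]
      exact Finset.sum_congr rfl fun i _ => by ring
    rw [e]
    exact (abs_add_le _ _).trans (add_le_add
      (le_ciSup (f := fun x => |∑ i, g i * f i x|) (Bd.sum hf g).abs.bddAbove x)
      (le_ciSup (f := fun x => |∑ i, g i * h i x|) (Bd.sum hh g).abs.bddAbove x))
  choose M hM using hf
  choose N hN using hh
  choose S hS using hs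
  have i1 : Integrable (fun g => AB f g) (gauss n) := integrable_of_lip (AB_lip hM)
  have i2 : Integrable (fun g => AB h g) (gauss n) := integrable_of_lip (AB_lip hN)
  have h2 : EA (fun i x => f i x + h i x) ≤ ∫ g, (AB f g + AB h g) ∂gauss n :=
    integral_mono (integrable_of_lip (AB_lip hS)) (i1.add i2) h1
  rwa [integral_add i1 i2] at h2

lemma EA_neg (f : Fin n → X → ℝ) : EA (fun i x => - f i x) = EA f := by
  unfold EA AB
  refine integral_congr_ae (Filter.Eventually.of_forall fun g => ?_)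
  refine iSup_congr fun x => ?_
  have e : ∑ i, g i * (- f i x) = - ∑ i, g i * f i x := by
    rw [← Finset.sum_neg_distrib]
    exact Finset.sum_congr rfl fun i _ => by ring
  simp only []
  rw [e, abs_neg]

/-- the product step -/
theorem EA_mul_le {f h : Fin n → X → ℝ} {α β : Fin n → ℝ} (hf : ∀ i x, |f i x| ≤ α i)
    (hh : ∀ i x, |h i x| ≤ β i) (x0 : X) (f0 : ∀ i, f i x0 = 0) (h0 : ∀ i, h i x0 = 0) :
    EA (fun i x => f i x * h i x) ≤
      4 * EA (fun i x => β i * f i x) + 4 * EA (fun i x => α i * h i x) := by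
  have bf : ∀ i, Bd (f i) := fun i => ⟨α i, hf i⟩
  have bh : ∀ i, Bd (h i) := fun i => ⟨β i, hh i⟩
  have hα : ∀ i, 0 ≤ α i := fun i => (abs_nonneg _).trans (hf i x0)
  have hβ : ∀ i, 0 ≤ β i := fun i => (abs_nonneg _).trans (hh i x0)
  -- the two squares
  have step : ∀ s : ℝ, |s| = 1 →
      EA (fun i x => (β i * f i x + s * (α i * h i x)) ^ 2 / (4 * (α i * β i))) ≤
      2 * (EA (fun i x => β i * f i x) + EA (fun i x => α i * h i x)) := by
    intro s hs
    have ba : ∀ i, Bd (fun x => β i * f i x + s * (α i * h i x)) := fun i =>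
      ((bf i).smul _).add (((bh i).smul _).smul s)
    have bb : ∀ i, Bd (fun x => (β i * f i x + s * (α i * h i x)) ^ 2 / (4 * (α i * β i))) := by
      intro i
      have h1 := ((ba i).mul (ba i)).smul (4 * (α i * β i))⁻¹
      have e : (fun x => (4 * (α i * β i))⁻¹ * ((β i * f i x + s * (α i * h i x)) *
          (β i * f i x + s * (α i * h i x)))) =
          fun x => (β i * f i x + s * (α i * h i x)) ^ 2 / (4 * (α i * β i)) := by
        funext x
        rw [div_eq_mul_inv]
        ring
      rwa [e] at h1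
    have hc := EA_contr ba bb (fun i x y => ?_) x0 (fun i => by simp [f0, h0])
    · refine hc.trans ?_
      have h2 := EA_add_le (f := fun i x => β i * f i x) (h := fun i x => s * (α i * h i x))
        (fun i => (bf i).smul _) (fun i => ((bh i).smul _).smul s)
      have h3 : EA (fun i x => s * (α i * h i x)) = EA (fun i x => α i * h i x) := by
        rcases eq_or_eq_neg_of_abs_eq hs with h4 | h4
        · rw [h4]
          simp only [one_mul]
        · rw [h4]
          have e : (fun (i : Fin n) (x : X) => -1 * (α i * h i x)) =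
              fun i x => - (α i * h i x) := by
            funext i x
            ring
          rw [e]
          exact EA_neg (fun i x => α i * h i x)
      rw [h3] at h2
      linarith
    · rcases eq_or_lt_of_le (mul_nonneg (hα i) (hβ i)) with h2 | h2
      · rw [← h2]
        simp
      · have hb1 : ∀ z, |β i * f i z + s * (α i * h i z)| ≤ 2 * (α i * β i) := by
          intro z
          refine (abs_add_le _ _).trans ?_
          rw [abs_mul, abs_mul, abs_mul, hs, abs_of_nonneg (hα i), abs_of_nonneg (hβ i)]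
          have h3 := mul_le_mul_of_nonneg_left (hf i z) (hβ i)
          have h4 := mul_le_mul_of_nonneg_left (hh i z) (hα i)
          linarith
        rw [← sub_div, abs_div, abs_of_pos (by positivity : (0 : ℝ) < 4 * (α i * β i)),
          div_le_iff₀ (by positivity), sq_sub_sq, abs_mul, mul_comm]
        refine mul_le_mul_of_nonneg_left ((abs_add_le _ _).trans ?_) (abs_nonneg _)
        linarith [hb1 x, hb1 y]
  have e : (fun (i : Fin n) (x : X) => f i x * h i x) = fun i x =>
      (β i * f i x + 1 * (α i * h i x)) ^ 2 / (4 * (α i * β i)) +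
      - ((β i * f i x + -1 * (α i * h i x)) ^ 2 / (4 * (α i * β i))) := by
    funext i x
    rcases eq_or_lt_of_le (hα i) with h2 | h2
    · have h3 : f i x = 0 := abs_eq_zero.1 (le_antisymm (by rw [h2]; exact hf i x) (abs_nonneg _))
      rw [← h2, h3]
      simp
    · rcases eq_or_lt_of_le (hβ i) with h4 | h4
      · have h3 : h i x = 0 :=
          abs_eq_zero.1 (le_antisymm (by rw [h4]; exact hh i x) (abs_nonneg _))
        rw [← h4, h3]
        simp
      · have h5 := h2.ne'
        have h6 := h4.ne'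
        field_simp
        ring
  have bsq : ∀ s : ℝ, ∀ i, Bd (fun x =>
      (β i * f i x + s * (α i * h i x)) ^ 2 / (4 * (α i * β i))) := by
    intro s i
    have ba : Bd (fun x => β i * f i x + s * (α i * h i x)) :=
      ((bf i).smul _).add (((bh i).smul _).smul s)
    have h1 := (ba.mul ba).smul (4 * (α i * β i))⁻¹
    have e : (fun x => (4 * (α i * β i))⁻¹ * ((β i * f i x + s * (α i * h i x)) *
        (β i * f i x + s * (α i * h i x)))) =
        fun x => (β i * f i x + s * (α i * h i x)) ^ 2 / (4 * (α i * β i)) := by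
      funext x
      rw [div_eq_mul_inv]
      ring
    rwa [e] at h1
  rw [e]
  have h1 := EA_add_le (f := fun i x => (β i * f i x + 1 * (α i * h i x)) ^ 2 / (4 * (α i * β i)))
    (h := fun i x => - ((β i * f i x + -1 * (α i * h i x)) ^ 2 / (4 * (α i * β i))))
    (bsq 1) (fun i => by
      have h2 := (bsq (-1) i).smul (-1)
      have e3 : (fun x => -1 * ((β i * f i x + -1 * (α i * h i x)) ^ 2 / (4 * (α i * β i)))) =
          fun x => - ((β i * f i x + -1 * (α i * h i x)) ^ 2 / (4 * (α i * β i))) := by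
        funext x
        ring
      rwa [e3] at h2)
  rw [EA_neg (fun i x => (β i * f i x + -1 * (α i * h i x)) ^ 2 / (4 * (α i * β i)))] at h1
  have h2 := step 1 (by simp)
  have h3 := step (-1) (by simp)
  linarith

end

end Pool.Agent.RedF
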