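import Pool.Agent.RedF.Defs
import Pool.Agent.RedF.Contr

set_option autoImplicit false

/-!
First properties of products of forms.
-/

namespace Pool.Agent.RedF

open Finset MeasureTheory Pool.Agent.InjP

/-- the unit ball of `ℓ_p^d` -/
abbrev Ball (p : ℝ) (d : ℕ) : Type := {x : Fin d → ℝ // pn p x ≤ 1}

variable {d : ℕ}

lemma ball_zero {p : ℝ} (hp : 0 < p) : pn p (0 : Fin d → ℝ) ≤ 1 := by
  rw [pn_zero hp]
  exact zero_le_one

/-- bounded on the unit ball -/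
def BdB (p : ℝ) (f : (Fin d → ℝ) → ℝ) : Prop := ∃ M : ℝ, ∀ x, pn p x ≤ 1 → |f x| ≤ M

lemma BdB.le_norm {p : ℝ} {f : (Fin d → ℝ) → ℝ} (hf : BdB p f) {x : Fin d → ℝ}
    (hx : pn p x ≤ 1) : |f x| ≤ ballNorm p f := by
  obtain ⟨M, hM⟩ := hf
  refine le_csSup ⟨M, ?_⟩ ⟨x, hx, rfl⟩
  rintro _ ⟨y, hy, rfl⟩
  exact hM y hy

lemma BdB.norm_nonneg {p : ℝ} (hp : 0 < p) {f : (Fin d → ℝ) → ℝ} (hf : BdB p f) :
    0 ≤ ballNorm p f := (abs_nonneg _).trans (hf.le_norm (ball_zero hp))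

lemma ballNorm_le {p : ℝ} (hp : 0 < p) {f : (Fin d → ℝ) → ℝ} {M : ℝ}
    (h : ∀ x, pn p x ≤ 1 → |f x| ≤ M) : ballNorm p f ≤ M := by
  refine csSup_le ⟨|f 0|, 0, ball_zero hp, rfl⟩ ?_
  rintro _ ⟨x, hx, rfl⟩
  exact h x hx

lemma ballNorm_zero {p : ℝ} (hp : 0 < p) : ballNorm p (fun _ : Fin d → ℝ => (0 : ℝ)) = 0 := by
  refine le_antisymm (ballNorm_le hp fun x _ => by simp) ?_
  exact BdB.norm_nonneg hp ⟨0, fun x _ => by simp⟩

lemma ballNorm_smul {p : ℝ} (hp : 0 < p) {f : (Fin d → ℝ) → ℝ} (hf : BdB p f) (c : ℝ) :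
    ballNorm p (fun x => c * f x) ≤ |c| * ballNorm p f :=
  ballNorm_le hp fun x hx => by
    rw [abs_mul]
    exact mul_le_mul_of_nonneg_left (hf.le_norm hx) (abs_nonneg _)

lemma ProdForm.pos {m r : ℕ} {f : (Fin d → ℝ) → ℝ} (h : ProdForm m r f) : 1 ≤ r := by
  induction h with
  | form h1 _ _ _ => exact h1
  | mul _ _ ih1 ih2 => omega

lemma ProdForm.bdB {p : ℝ} (hp : 0 < p) {m r : ℕ} {f : (Fin d → ℝ) → ℝ} (h : ProdForm m r f) :
    BdB p f := by
  induction h with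
  | form _ _ S _ => exact ⟨injNorm p S, fun x hx => le_injNorm_of hp S hx⟩
  | mul _ _ ih1 ih2 =>
    obtain ⟨M, hM⟩ := ih1
    obtain ⟨N, hN⟩ := ih2
    exact ⟨M * N, fun x hx => by
      rw [abs_mul]
      exact mul_le_mul (hM x hx) (hN x hx) (abs_nonneg _) ((abs_nonneg _).trans (hM x hx))⟩

lemma ProdForm.zero_at {m r : ℕ} {f : (Fin d → ℝ) → ℝ} (h : ProdForm m r f) : f 0 = 0 := by
  induction h with
  | form h1 _ S _ =>
    have h := pairing_smul_right S 0 0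
    rw [zero_smul, zero_pow (by omega), zero_mul] at h
    exact h
  | mul _ _ ih1 ih2 => exact mul_eq_zero_of_left ih1 _

lemma ProdForm.smul {m r : ℕ} {f : (Fin d → ℝ) → ℝ} (h : ProdForm m r f) (c : ℝ) :
    ProdForm m r (fun x => c * f x) := by
  induction h with
  | @form s h1 hm S hS =>
    have e : (fun x => c * pairing S x) = pairing (fun k => c * S k) := by
      funext x
      unfold pairing
      rw [Finset.mul_sum]
      exact Finset.sum_congr rfl fun k _ => by ring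
    rw [e]
    exact ProdForm.form h1 hm _ fun σ k => by rw [hS σ k]
  | @mul a b f h hf hh ih1 ih2 =>
    have e : (fun x => c * (f x * h x)) = fun x => (c * f x) * h x := by
      funext x
      ring
    rw [e]
    exact ProdForm.mul ih1 hh

/-- the alternatives for a product of forms -/
lemma ProdForm.cases' {m r : ℕ} {f : (Fin d → ℝ) → ℝ} (h : ProdForm m r f) :
    (r ≤ m ∧ ∃ S : (Fin r → Fin d) → ℝ, IsSymT S ∧ f = pairing S) ∨
    ∃ (a b : ℕ) (F H : (Fin d → ℝ) → ℝ), 1 ≤ a ∧ 1 ≤ b ∧ a + b = r ∧ ProdForm m a F ∧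
      ProdForm m b H ∧ f = fun x => F x * H x := by
  cases h with
  | form h1 hm S hS => exact Or.inl ⟨hm, S, hS, rfl⟩
  | mul hf hh => exact Or.inr ⟨_, _, _, _, hf.pos, hh.pos, rfl, hf, hh, rfl⟩

end Pool.Agent.RedF
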