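import Pool.Agent.InjP.Defs

set_option autoImplicit false

/-!
Products of forms of bounded degree, and the norm of a function on the unit ball of `ℓ_p^d`.
-/

namespace Pool.Agent.RedF

open Pool.Agent.InjP

/-- `ProdForm m r f`: the function `f` on `ℝ^d` is a product of forms `x ↦ ⟨S, x^{⊗ s}⟩` with
symmetric `S`, of degrees `1 ≤ s ≤ m` with sum `r`. -/
inductive ProdForm {d : ℕ} (m : ℕ) : ℕ → ((Fin d → ℝ) → ℝ) → Prop
  | form {s : ℕ} (h1 : 1 ≤ s) (hm : s ≤ m) (S : (Fin s → Fin d) → ℝ) (hS : IsSymT S) :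
      ProdForm m s (pairing S)
  | mul {a b : ℕ} {f h : (Fin d → ℝ) → ℝ} (hf : ProdForm m a f) (hh : ProdForm m b h) :
      ProdForm m (a + b) (fun x => f x * h x)

/-- the supremum of `|f|` on the unit ball of `ℓ_p^d` -/
noncomputable def ballNorm {d : ℕ} (p : ℝ) (f : (Fin d → ℝ) → ℝ) : ℝ :=
  sSup {y | ∃ x : Fin d → ℝ, pn p x ≤ 1 ∧ y = |f x|}

end Pool.Agent.RedF
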