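import Mathlib

/-!
# MP_e7fc82_pr: a product of `r` variables is a combination of `r`-th powers
-/

namespace Pool.Agent.RedF

open Finset

/-- the sign of a Boolean -/
def sgb (b : Bool) : ℝ := if b then 1 else -1

lemma sgb_abs (b : Bool) : |sgb b| = 1 := by
  cases b <;> simp [sgb]

lemma sgb_sq (b : Bool) : sgb b * sgb b = 1 := by
  cases b <;> simp [sgb]

lemma sgb_not (b : Bool) : sgb (!b) = - sgb b := by
  cases b <;> simp [sgb]

lemma coef_bij {r : ℕ} {m : Fin r → Fin r} (hm : Function.Bijective m) :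
    ∑ ε : Fin r → Bool, (∏ j, sgb (ε j)) * ∏ l, sgb (ε (m l)) = 2 ^ r := by
  have e1 : ∀ ε : Fin r → Bool, (∏ j, sgb (ε j)) * ∏ l, sgb (ε (m l)) = 1 := by
    intro ε
    rw [hm.prod_comp (fun j => sgb (ε j)), ← Finset.prod_mul_distrib]
    exact Finset.prod_eq_one fun j _ => sgb_sq _
  rw [Finset.sum_congr rfl fun ε _ => e1 ε]
  simp

lemma coef_not {r : ℕ} {m : Fin r → Fin r} (hm : ¬ Function.Bijective m) :
    ∑ ε : Fin r → Bool, (∏ j, sgb (ε j)) * ∏ l, sgb (ε (m l)) = 0 := by
  have hs : ¬ Function.Surjective m := fun h => hm (Finite.surjective_iff_bijective.1 h)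
  unfold Function.Surjective at hs
  push Not at hs
  obtain ⟨j0, hj0⟩ := hs
  refine Finset.sum_involution (fun ε _ => Function.update ε j0 (!ε j0)) ?_ ?_ ?_ ?_
  · intro ε _
    have e1 : ∏ j, sgb (Function.update ε j0 (!ε j0) j) = - ∏ j, sgb (ε j) := by
      have : ∀ j, sgb (Function.update ε j0 (!ε j0) j) = sgb (ε j) * (if j = j0 then -1 else 1) := by
        intro j
        by_cases h : j = j0
        · subst h
          rw [Function.update_self, if_pos rfl, sgb_not]; ring
        · rw [Function.update_of_ne h, if_neg h, mul_one]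
      rw [Finset.prod_congr rfl fun j _ => this j, Finset.prod_mul_distrib, Finset.prod_ite_eq']
      simp
    have e2 : ∏ l, sgb (Function.update ε j0 (!ε j0) (m l)) = ∏ l, sgb (ε (m l)) :=
      Finset.prod_congr rfl fun l _ => by rw [Function.update_of_ne (hj0 l)]
    rw [e1, e2]; ring
  · intro ε _ _ h
    have := congrFun h j0
    rw [Function.update_self] at this
    cases h' : ε j0 <;> simp [h'] at this
  · intro ε _
    exact Finset.mem_univ _
  · intro ε _
    funext j
    by_cases h : j = j0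
    · subst h
      simp
    · rw [Function.update_of_ne h, Function.update_of_ne h]

lemma pow_expand {r : ℕ} (z : Fin r → ℝ) (ε : Fin r → Bool) :
    (∑ l, sgb (ε l) * z l) ^ r = ∑ m : Fin r → Fin r, (∏ l, sgb (ε (m l))) * ∏ l, z (m l) := by
  have h := Finset.prod_univ_sum (fun _ : Fin r => (Finset.univ : Finset (Fin r)))
    (fun _ l => sgb (ε l) * z l)
  rw [Finset.prod_const, Finset.card_univ, Fintype.card_fin, Fintype.piFinset_univ] at h
  rw [h]
  exact Finset.sum_congr rfl fun m _ => Finset.prod_mul_distrib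

lemma pow_identity {r : ℕ} (z : Fin r → ℝ) :
    ∑ ε : Fin r → Bool, (∏ j, sgb (ε j)) * (∑ l, sgb (ε l) * z l) ^ r
      = (Fintype.card {m : Fin r → Fin r // Function.Bijective m} : ℝ) * (2 ^ r * ∏ l, z l) := by
  classical
  have e1 : ∀ ε : Fin r → Bool, (∏ j, sgb (ε j)) * (∑ l, sgb (ε l) * z l) ^ r
      = ∑ m : Fin r → Fin r, ((∏ j, sgb (ε j)) * ∏ l, sgb (ε (m l))) * ∏ l, z (m l) := by
    intro ε
    rw [pow_expand, Finset.mul_sum]
    exact Finset.sum_congr rfl fun m _ => by ring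
  rw [Finset.sum_congr rfl fun ε _ => e1 ε, Finset.sum_comm]
  have e2 : ∀ m : Fin r → Fin r, ∑ ε : Fin r → Bool, ((∏ j, sgb (ε j)) * ∏ l, sgb (ε (m l)))
        * ∏ l, z (m l) = if Function.Bijective m then 2 ^ r * ∏ l, z l else 0 := by
    intro m
    rw [← Finset.sum_mul]
    split_ifs with h
    · rw [coef_bij h, h.prod_comp (fun j => z j)]
    · rw [coef_not h, zero_mul]
  rw [Finset.sum_congr rfl fun m _ => e2 m, ← Finset.sum_filter, Finset.sum_const, nsmul_eq_mul,
    Fintype.card_subtype]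

/-- polarisation of a product -/
theorem prod_eq_powers (r : ℕ) : ∃ (N : ℕ) (c : Fin N → ℝ) (s : Fin N → Fin r → ℝ),
    (∀ i l, |s i l| ≤ 1) ∧ ∀ z : Fin r → ℝ, ∏ l, z l = ∑ i, c i * (∑ l, s i l * z l) ^ r := by
  classical
  set K : ℝ := (Fintype.card {m : Fin r → Fin r // Function.Bijective m} : ℝ) with hK
  have hKpos : 0 < K := by
    rw [hK]
    have : Nonempty {m : Fin r → Fin r // Function.Bijective m} := ⟨⟨id, Function.bijective_id⟩⟩
    exact_mod_cast Fintype.card_pos
  let e : Fin (Fintype.card (Fin r → Bool)) ≃ (Fin r → Bool) := (Fintype.equivFin _).symm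
  refine ⟨Fintype.card (Fin r → Bool), fun i => (K * 2 ^ r)⁻¹ * ∏ j, sgb (e i j),
    fun i l => sgb (e i l), fun i l => (sgb_abs _).le, fun z => ?_⟩
  have h1 := pow_identity z
  rw [← hK] at h1
  have h2 : ∑ i, ((K * 2 ^ r)⁻¹ * ∏ j, sgb (e i j)) * (∑ l, sgb (e i l) * z l) ^ r
      = (K * 2 ^ r)⁻¹ * ∑ ε : Fin r → Bool, (∏ j, sgb (ε j)) * (∑ l, sgb (ε l) * z l) ^ r := by
    rw [Finset.mul_sum, ← Equiv.sum_comp e]
    exact Finset.sum_congr rfl fun i _ => by ring
  rw [h2, h1]
  have hne : K * 2 ^ r ≠ 0 := by positivity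
  field_simp

end Pool.Agent.RedF
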