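import Pool.Agent.InjB.Pol
import Pool.Agent.RedF.Pow

/-!
# MP_e7fc82_pr: forms depending on few linear forms are combinations of powers (core)
-/

namespace Pool.Agent.RedF

open Finset Pool.Agent.InjP Pool.Agent.InjB

lemma pairing_comb {r d k : ℕ} (T : (Fin r → Fin d) → ℝ) (a : Fin k → ℝ) (y : Fin k → Fin d → ℝ) :
    pairing T (∑ j, a j • y j) = ∑ J : Fin r → Fin k, (∏ l, a (J l)) * ML T (fun l => y (J l)) := by
  unfold pairing ML
  have e1 : ∀ κ : Fin r → Fin d, T κ * ∏ l, (∑ j, a j • y j) (κ l)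
      = ∑ J : Fin r → Fin k, T κ * ((∏ l, a (J l)) * ∏ l, y (J l) (κ l)) := by
    intro κ
    rw [← Finset.mul_sum]
    congr 1
    have e2 : ∀ l, (∑ j, a j • y j) (κ l) = ∑ j, a j * y j (κ l) := by
      intro l
      rw [Finset.sum_apply]
      rfl
    rw [Finset.prod_congr rfl fun l _ => e2 l, Finset.prod_univ_sum, Fintype.piFinset_univ]
    exact Finset.sum_congr rfl fun m _ => Finset.prod_mul_distrib
  rw [Finset.sum_congr rfl fun κ _ => e1 κ, Finset.sum_comm]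
  refine Finset.sum_congr rfl fun J _ => ?_
  rw [Finset.mul_sum]
  exact Finset.sum_congr rfl fun κ _ => by ring

theorem forms_core {r N : ℕ} (hr : 1 ≤ r) (c : Fin N → ℝ) (s : Fin N → Fin r → ℝ)
    (hs : ∀ i l, |s i l| ≤ 1)
    (hc : ∀ z : Fin r → ℝ, ∏ l, z l = ∑ i, c i * (∑ l, s i l * z l) ^ r)
    {p : ℝ} (hp : 1 ≤ p) {d k : ℕ} {T : (Fin r → Fin d) → ℝ} (hT : IsSymT T)
    (u y : Fin k → Fin d → ℝ) (hy : ∀ j, pn p (y j) ≤ 1)
    (hu : ∀ j (z : Fin d → ℝ), pn p z ≤ 1 → |∑ l, u j l * z l| ≤ 1)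
    (hrep : ∀ x, pairing T x = pairing T (∑ j, (∑ l, u j l * x l) • y j)) :
    ∃ (m : ℕ) (c' : Fin m → ℝ) (v : Fin m → Fin d → ℝ),
      (∀ x, pairing T x = ∑ j, c' j * (∑ l, v j l * x l) ^ r) ∧
      (∀ j (x : Fin d → ℝ), pn p x ≤ 1 → |∑ l, v j l * x l| ≤ 1) ∧
      ∑ j, |c' j| ≤ ((r : ℝ) ^ r * (r : ℝ) ^ r * ∑ i, |c i|) * (k : ℝ) ^ r * injNorm p T := by
  classical
  have hr0 : (0 : ℝ) < r := by exact_mod_cast hr
  have hrne : r ≠ 0 := by omega
  have hp0 : 0 < p := lt_of_lt_of_le one_pos hp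
  let e : Fin (Fintype.card ((Fin r → Fin k) × Fin N)) ≃ ((Fin r → Fin k) × Fin N) :=
    (Fintype.equivFin _).symm
  let C2 : (Fin r → Fin k) × Fin N → ℝ := fun q => ML T (fun l => y (q.1 l)) * (c q.2 * (r : ℝ) ^ r)
  let V2 : (Fin r → Fin k) × Fin N → Fin d → ℝ :=
    fun q t => ∑ l, (s q.2 l / r) * u (q.1 l) t
  have hV : ∀ q (x : Fin d → ℝ), ∑ t, V2 q t * x t = (∑ l, s q.2 l * ∑ t, u (q.1 l) t * x t) / r := by
    intro q x
    show ∑ t, (∑ l, (s q.2 l / r) * u (q.1 l) t) * x t = _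
    rw [Finset.sum_div]
    simp only [Finset.sum_mul, Finset.mul_sum]
    rw [Finset.sum_comm]
    refine Finset.sum_congr rfl fun l _ => ?_
    rw [Finset.sum_div]
    exact Finset.sum_congr rfl fun t _ => by ring
  refine ⟨Fintype.card ((Fin r → Fin k) × Fin N), fun j => C2 (e j), fun j => V2 (e j), ?_, ?_, ?_⟩
  · intro x
    rw [Equiv.sum_comp e (fun q => C2 q * (∑ t, V2 q t * x t) ^ r), hrep x, pairing_comb,
      Fintype.sum_prod_type]
    refine Finset.sum_congr rfl fun J _ => ?_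
    rw [hc (fun l => ∑ t, u (J l) t * x t), Finset.sum_mul]
    refine Finset.sum_congr rfl fun i _ => ?_
    rw [hV (J, i) x, div_pow]
    show _ = ML T (fun l => y (J l)) * (c i * (r : ℝ) ^ r) * _
    field_simp
  · intro j x hx
    rw [hV (e j) x, abs_div, abs_of_pos hr0, div_le_one hr0]
    calc |∑ l, s (e j).2 l * ∑ t, u ((e j).1 l) t * x t|
        ≤ ∑ l, |s (e j).2 l * ∑ t, u ((e j).1 l) t * x t| := Finset.abs_sum_le_sum_abs _ _
      _ ≤ ∑ _l : Fin r, (1 : ℝ) := by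
          refine Finset.sum_le_sum fun l _ => ?_
          rw [abs_mul]
          exact mul_le_one₀ (hs _ _) (abs_nonneg _) (hu _ x hx)
      _ = r := by simp
  · rw [Equiv.sum_comp e (fun q => |C2 q|), Fintype.sum_prod_type]
    have h1 : ∀ J : Fin r → Fin k, ∑ i, |C2 (J, i)| ≤
        (r : ℝ) ^ r * (r : ℝ) ^ r * (∑ i, |c i|) * injNorm p T := by
      intro J
      have h2 := ml_le hp hrne hT (y := fun l => y (J l)) (fun l => hy (J l))
      have h3 : ∀ i, |C2 (J, i)| = |ML T (fun l => y (J l))| * ((r : ℝ) ^ r * |c i|) := by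
        intro i
        show |ML T (fun l => y (J l)) * (c i * (r : ℝ) ^ r)| = _
        rw [abs_mul, abs_mul, abs_of_nonneg (by positivity : (0 : ℝ) ≤ (r : ℝ) ^ r)]
        ring
      rw [Finset.sum_congr rfl fun i _ => h3 i, ← Finset.mul_sum, ← Finset.mul_sum]
      calc |ML T (fun l => y (J l))| * ((r : ℝ) ^ r * ∑ i, |c i|)
          ≤ ((r : ℝ) ^ r * injNorm p T) * ((r : ℝ) ^ r * ∑ i, |c i|) :=
            mul_le_mul_of_nonneg_right h2
              (mul_nonneg (by positivity) (Finset.sum_nonneg fun i _ => abs_nonneg _))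
        _ = _ := by ring
    calc ∑ J : Fin r → Fin k, ∑ i, |C2 (J, i)|
        ≤ ∑ _J : Fin r → Fin k, (r : ℝ) ^ r * (r : ℝ) ^ r * (∑ i, |c i|) * injNorm p T :=
          Finset.sum_le_sum fun J _ => h1 J
      _ = _ := by
          rw [Finset.sum_const, Finset.card_univ, Fintype.card_fun, Fintype.card_fin,
            Fintype.card_fin, nsmul_eq_mul]
          push_cast
          ring

end Pool.Agent.RedF
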