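import Pool.Agent.InjP.Defs

/-!
# MP_e7fc82_pr: symmetrisation of an array
-/

namespace Pool.Agent.RedF

open Finset Pool.Agent.InjP

/-- permuting the indices does not change the form -/
lemma pairing_perm {b d : ℕ} (S : (Fin b → Fin d) → ℝ) (τ : Equiv.Perm (Fin b)) (x : Fin d → ℝ) :
    pairing (fun k => S (k ∘ τ)) x = pairing S x := by
  unfold pairing
  refine Fintype.sum_equiv (Equiv.arrowCongr τ.symm (Equiv.refl (Fin d))) _ _ ?_
  intro k
  have e1 : (Equiv.arrowCongr τ.symm (Equiv.refl (Fin d))) k = k ∘ τ := by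
    funext j
    simp [Equiv.arrowCongr]
  rw [e1]
  congr 1
  exact (Equiv.prod_comp τ (fun j => x (k j))).symm

theorem exists_sym {b d : ℕ} (S0 : (Fin b → Fin d) → ℝ) :
    ∃ S : (Fin b → Fin d) → ℝ, IsSymT S ∧ ∀ x, pairing S x = pairing S0 x := by
  classical
  set F : ℝ := (Fintype.card (Equiv.Perm (Fin b)) : ℝ) with hF
  have hFpos : 0 < F := by
    rw [hF]
    exact_mod_cast Fintype.card_pos
  refine ⟨fun k => F⁻¹ * ∑ τ : Equiv.Perm (Fin b), S0 (k ∘ τ), ?_, ?_⟩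
  · intro σ k
    show F⁻¹ * ∑ τ : Equiv.Perm (Fin b), S0 ((k ∘ σ) ∘ τ) = F⁻¹ * ∑ τ : Equiv.Perm (Fin b), S0 (k ∘ τ)
    congr 1
    refine Fintype.sum_equiv (Equiv.mulLeft σ) _ _ fun τ => ?_
    rfl
  · intro x
    have h1 : pairing (fun k => F⁻¹ * ∑ τ : Equiv.Perm (Fin b), S0 (k ∘ τ)) x
        = F⁻¹ * ∑ τ : Equiv.Perm (Fin b), pairing (fun k => S0 (k ∘ τ)) x := by
      unfold pairing
      rw [Finset.mul_sum]
      simp only [Finset.mul_sum, Finset.sum_mul]
      rw [Finset.sum_comm]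
      refine Finset.sum_congr rfl fun τ _ => Finset.sum_congr rfl fun k _ => ?_
      ring
    rw [h1, Finset.sum_congr rfl fun τ _ => pairing_perm S0 τ x, Finset.sum_const,
      Finset.card_univ, nsmul_eq_mul, ← hF, ← mul_assoc, inv_mul_cancel₀ hFpos.ne', one_mul]

end Pool.Agent.RedF
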