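import Pool.Agent.InjB.Pol
import Pool.Agent.RedF.Sym

/-!
# MP_e7fc82_pr: some slots of a multilinear form filled with fixed vectors
-/

namespace Pool.Agent.RedF

open Finset Pool.Agent.InjP Pool.Agent.InjB

lemma lin_apply {d : ℕ} (L : (Fin d → ℝ) →ₗ[ℝ] (Fin d → ℝ)) (x : Fin d → ℝ) (t' : Fin d) :
    L x t' = ∑ t, x t * L (Pi.single t (1 : ℝ)) t' := by
  have h1 : x = ∑ t, x t • (Pi.single t (1 : ℝ) : Fin d → ℝ) := by
    funext s
    rw [Finset.sum_apply]
    simp [Pi.single_apply]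
  conv_lhs => rw [h1, map_sum]
  rw [Finset.sum_apply]
  refine Finset.sum_congr rfl fun t _ => ?_
  rw [map_smul, Pi.smul_apply, smul_eq_mul]

theorem slots {r d : ℕ} (T : (Fin r → Fin d) → ℝ) (J : Fin r → Bool) (y : Fin r → Fin d → ℝ)
    (L : (Fin d → ℝ) →ₗ[ℝ] (Fin d → ℝ)) :
    ∃ S : (Fin (Finset.univ.filter (fun i => J i = true)).card → Fin d) → ℝ,
      IsSymT S ∧ ∀ x, pairing S x = ML T (fun i => if J i = true then L x else y i) := by
  classical
  set s : Finset (Fin r) := Finset.univ.filter (fun i => J i = true) with hs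
  let ι : Fin s.card → Fin r := fun j => (s.equivFin.symm j : Fin r)
  have hprod : ∀ A : Fin r → ℝ, ∏ i ∈ s, A i = ∏ j : Fin s.card, A (ι j) := by
    intro A
    rw [← Finset.prod_coe_sort s A, ← Equiv.prod_comp s.equivFin.symm (fun i : s => A i)]
  let R : (Fin r → Fin d) → ℝ := fun κ => ∏ i ∈ Finset.univ.filter (fun i => ¬ J i = true), y i (κ i)
  let S0 : (Fin s.card → Fin d) → ℝ := fun k => ∑ κ : Fin r → Fin d,
    T κ * ((∏ j, L (Pi.single (k j) (1 : ℝ)) (κ (ι j))) * R κ)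
  obtain ⟨S, hS, hSe⟩ := exists_sym S0
  refine ⟨S, hS, fun x => ?_⟩
  rw [hSe x]
  have e1 : ML T (fun i => if J i = true then L x else y i)
      = ∑ κ : Fin r → Fin d, T κ * ((∏ j, ∑ t, x t * L (Pi.single t (1 : ℝ)) (κ (ι j))) * R κ) := by
    unfold ML
    refine Finset.sum_congr rfl fun κ _ => ?_
    congr 1
    have e2 : ∀ i, (if J i = true then L x else y i) (κ i)
        = if J i = true then L x (κ i) else y i (κ i) := by
      intro i
      split_ifs <;> rfl
    rw [Finset.prod_congr rfl fun i _ => e2 i, Finset.prod_ite, ← hs,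
      hprod (fun i => L x (κ i))]
    congr 1
    exact Finset.prod_congr rfl fun j _ => lin_apply L x _
  rw [e1]
  show ∑ k : Fin s.card → Fin d, S0 k * ∏ j, x (k j) = _
  have e3 : ∀ κ : Fin r → Fin d, T κ * ((∏ j, ∑ t, x t * L (Pi.single t (1 : ℝ)) (κ (ι j))) * R κ)
      = ∑ k : Fin s.card → Fin d,
        (T κ * ((∏ j, L (Pi.single (k j) (1 : ℝ)) (κ (ι j))) * R κ)) * ∏ j, x (k j) := by
    intro κ
    rw [Finset.prod_univ_sum, Fintype.piFinset_univ, Finset.sum_mul, Finset.mul_sum]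
    refine Finset.sum_congr rfl fun k _ => ?_
    rw [Finset.prod_mul_distrib]
    ring
  rw [Finset.sum_congr rfl fun κ _ => e3 κ, Finset.sum_comm]
  refine Finset.sum_congr rfl fun k _ => ?_
  rw [← Finset.sum_mul]

end Pool.Agent.RedF
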