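import Pool.Agent.RedF.Basic
import Pool.Agent.RedF.Forms0
import Pool.Agent.RedF.Aub
import Pool.Agent.RedF.Slots

set_option autoImplicit false

/-!
Symmetric tensors of low degree along a subspace of small codimension are short sums of products.
-/

namespace Pool.Agent.RedF

open Finset MeasureTheory Pool.Agent.InjP Pool.Agent.InjB

lemma lin_form {d m : ℕ} (hm : 1 ≤ m) (v : Fin d → ℝ) :
    ProdForm m 1 (fun x => ∑ l, v l * x l) := by
  have e : (fun x : Fin d → ℝ => ∑ l, v l * x l) =
      pairing (fun k : Fin 1 → Fin d => v (k 0)) := by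
    funext x
    unfold pairing
    rw [← (Equiv.funUnique (Fin 1) (Fin d)).symm.sum_comp]
    refine Finset.sum_congr rfl fun l _ => ?_
    simp
  rw [e]
  refine ProdForm.form le_rfl hm _ fun σ k => ?_
  have : σ 0 = 0 := Subsingleton.elim _ _
  simp only [Function.comp_apply, this]

lemma prod_lin_form {d m : ℕ} (hm : 1 ≤ m) {ι : Type*} (s : Finset ι) (hs : s.Nonempty)
    (v : ι → Fin d → ℝ) : ProdForm m s.card (fun x => ∏ i ∈ s, ∑ l, v i l * x l) := by
  induction hs using Finset.Nonempty.cons_induction with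
  | singleton a =>
    simp only [Finset.card_singleton, Finset.prod_singleton]
    exact lin_form hm _
  | cons a s ha hs ih =>
    simp only [Finset.card_cons, Finset.prod_cons]
    rw [add_comm]
    exact ProdForm.mul (lin_form hm _) ih

lemma ML_smul {r d : ℕ} (T : (Fin r → Fin d) → ℝ) (c : ℝ) (z : Fin r → Fin d → ℝ) :
    ML T (fun i => c • z i) = c ^ r * ML T z := by
  unfold ML
  rw [Finset.mul_sum]
  refine Finset.sum_congr rfl fun k _ => ?_
  simp only [Pi.smul_apply, smul_eq_mul, Finset.prod_mul_distrib, Finset.prod_const,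
    Finset.card_univ, Fintype.card_fin]
  ring

lemma ML_le_scaled {r d : ℕ} {p : ℝ} (hp : 1 ≤ p) (hr : r ≠ 0) {T : (Fin r → Fin d) → ℝ}
    (hT : IsSymT T) {c : ℝ} (hc : 0 < c) {z : Fin r → Fin d → ℝ} (hz : ∀ i, pn p (z i) ≤ c) :
    |ML T z| ≤ c ^ r * ((r : ℝ) ^ r * injNorm p T) := by
  have e : z = fun i => c • (c⁻¹ • z i) := by
    funext i
    rw [smul_smul, mul_inv_cancel₀ hc.ne', one_smul]
  rw [e, ML_smul, abs_mul, abs_of_pos (pow_pos hc r)]
  refine mul_le_mul_of_nonneg_left (ml_le hp hr hT fun i => ?_) (pow_pos hc r).le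
  rw [pn_smul (by linarith), abs_of_pos (inv_pos.2 hc), inv_mul_le_iff₀ hc, mul_one]
  exact hz i

theorem few {r m : ℕ} (hr : 1 ≤ r) (hm : 1 ≤ m) {p : ℝ} (hp : 1 ≤ p) {d K : ℕ}
    {T : (Fin r → Fin d) → ℝ} (hT : IsSymT T) (e : Fin K → Fin d → ℝ)
    (h : ∀ x z : Fin d → ℝ, (∀ j, ∑ l, e j l * z l = 0) → ∃ P : Polynomial ℝ,
      P.natDegree ≤ m ∧ ∀ t : ℝ, pairing T (x + t • z) = P.eval t) :
    ∃ (k : ℕ) (q : Fin k → (Fin d → ℝ) → ℝ), (∀ j, ProdForm m r (q j)) ∧
      (∀ x, pairing T x = ∑ j, q j x) ∧
      ∑ j, ballNorm p (q j) ≤ (r : ℝ) ^ r * ((K : ℝ) + 1) ^ (2 * r) * injNorm p T := by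
  classical
  have hp0 : 0 < p := by linarith
  obtain ⟨k, u, y, hkK, hy, hu, hrep⟩ := auerbach hp e
  -- the projection
  let L : (Fin d → ℝ) →ₗ[ℝ] (Fin d → ℝ) :=
    { toFun := fun x => x - ∑ j, (∑ l, u j l * x l) • y j
      map_add' := by
        intro a b
        simp only [Pi.add_apply, mul_add, Finset.sum_add_distrib, add_smul]
        abel
      map_smul' := by
        intro c a
        have e1 : ∀ j, (∑ l, u j l * (c • a) l) = c * ∑ l, u j l * a l := by
          intro j
          rw [Finset.mul_sum]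
          refine Finset.sum_congr rfl fun l _ => ?_
          rw [Pi.smul_apply, smul_eq_mul]
          ring
        simp only [e1, mul_smul, RingHom.id_apply, smul_sub, Finset.smul_sum] }
  have hL : ∀ x, L x = x - ∑ j, (∑ l, u j l * x l) • y j := fun x => rfl
  have hLe : ∀ x i, ∑ l, e i l * (L x) l = 0 := by
    intro x i
    have h1 := hrep x i
    have e1 : ∑ l, e i l * (L x) l = ∑ l, e i l * x l -
        ∑ l, e i l * (∑ j, (∑ l', u j l' * x l') • y j) l := by
      rw [← Finset.sum_sub_distrib]
      refine Finset.sum_congr rfl fun l _ => ?_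
      rw [hL, Pi.sub_apply]
      ring
    rw [e1, h1, sub_self]
  have hLn : ∀ x, pn p x ≤ 1 → pn p (L x) ≤ (k : ℝ) + 1 := by
    intro x hx
    have e1 : L x = x + (-1 : ℝ) • ∑ j, (∑ l, u j l * x l) • y j := by
      rw [hL, neg_one_smul, sub_eq_add_neg]
    rw [e1]
    refine (pn_add_le hp _ _).trans ?_
    rw [pn_smul hp0, abs_neg, abs_one, one_mul]
    have h2 : pn p (∑ j, (∑ l, u j l * x l) • y j) ≤ k := by
      refine (Finset.le_sum_of_subadditive (pn p) (pn_zero hp0).le
        (fun a b => pn_add_le hp a b) _ _).trans ?_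
      calc ∑ j, pn p ((∑ l, u j l * x l) • y j) ≤ ∑ _j : Fin k, (1 : ℝ) := by
            refine Finset.sum_le_sum fun j _ => ?_
            rw [pn_smul hp0]
            exact mul_le_one₀ (hu j x hx) (pn_nonneg _ _) (hy j)
        _ = k := by simp
    linarith
  -- the pieces
  let U : (Fin d → ℝ) → Fin (k + 1) → ℝ := fun x => Fin.cons 1 fun j => ∑ l, u j l * x l
  let Y : (Fin d → ℝ) → Fin (k + 1) → Fin d → ℝ := fun x => Fin.cons (L x) y
  let b : (Fin r → Fin (k + 1)) → ℕ := fun J =>
    (Finset.univ.filter (fun l => decide (J l = 0) = true)).card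
  let c : (Fin r → Fin (k + 1)) → (Fin d → ℝ) → ℝ := fun J x =>
    (∏ l, U x (J l)) * ML T (fun l => Y x (J l))
  have hexp : ∀ (x : Fin d → ℝ) (t : ℝ),
      pairing T ((∑ j, (∑ l, u j l * x l) • y j) + t • L x) = ∑ J, t ^ b J * c J x := by
    intro x t
    have e1 : (∑ j, (∑ l, u j l * x l) • y j) + t • L x =
        ∑ j : Fin (k + 1), ((if j = 0 then t else 1) * U x j) • Y x j := by
      rw [Fin.sum_univ_succ]
      simp only [U, Y, Fin.cons_zero, Fin.cons_succ, if_true, Fin.succ_ne_zero, if_false, one_mul,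
        mul_one]
      rw [add_comm]
    rw [e1, pairing_comb]
    refine Finset.sum_congr rfl fun J _ => ?_
    rw [Finset.prod_mul_distrib, Finset.prod_ite, Finset.prod_const, Finset.prod_const_one, mul_one,
      mul_assoc]
    simp only [b, c, decide_eq_true_eq]
  have hsum : ∀ x, pairing T x = ∑ J ∈ Finset.univ.filter (fun J => b J ≤ m), c J x := by
    intro x
    obtain ⟨P, hP, hPt⟩ := h (∑ j, (∑ l, u j l * x l) • y j) (L x) (hLe x)
    have e1 : P = ∑ J, Polynomial.C (c J x) * Polynomial.X ^ b J := by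
      refine Polynomial.funext fun t => ?_
      rw [← hPt t, hexp x t, Polynomial.eval_finset_sum]
      refine Finset.sum_congr rfl fun J _ => ?_
      simp only [Polynomial.eval_mul, Polynomial.eval_C, Polynomial.eval_pow, Polynomial.eval_X]
      ring
    have e2 : x = (∑ j, (∑ l, u j l * x l) • y j) + (1 : ℝ) • L x := by
      rw [hL, one_smul]
      abel
    have e3 : pairing T x = P.eval 1 := by
      rw [← hPt 1, ← e2]
    rw [e3, Polynomial.eval_eq_sum_range' (Nat.lt_succ_of_le hP)]
    have e4 : ∀ i, P.coeff i = ∑ J, if b J = i then c J x else 0 := by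
      intro i
      conv_lhs => rw [e1]
      rw [Polynomial.finset_sum_coeff]
      refine Finset.sum_congr rfl fun J _ => ?_
      rw [Polynomial.coeff_C_mul, Polynomial.coeff_X_pow]
      by_cases h3 : b J = i
      · rw [if_pos h3, if_pos h3.symm, mul_one]
      · rw [if_neg h3, if_neg (fun h4 => h3 h4.symm), mul_zero]
    simp only [e4, one_pow, mul_one]
    rw [Finset.sum_comm, Finset.sum_filter]
    refine Finset.sum_congr rfl fun J _ => ?_
    rw [Finset.sum_ite_eq]
    by_cases h3 : b J ≤ m
    · rw [if_pos (Finset.mem_range.2 (Nat.lt_succ_of_le h3)), if_pos h3]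
    · rw [if_neg (fun h4 => h3 (Nat.le_of_lt_succ (Finset.mem_range.1 h4))), if_neg h3]
  -- the pieces are products of forms
  have hpf : ∀ J, b J ≤ m → ProdForm m r (c J) := by
    intro J hJ
    obtain ⟨S, hS, hSx⟩ := slots T (fun l => decide (J l = 0))
      (fun l => (Fin.cons 0 y : Fin (k + 1) → Fin d → ℝ) (J l)) L
    have e1 : ∀ x, ML T (fun l => Y x (J l)) = pairing S x := by
      intro x
      rw [hSx x]
      congr 1
      funext l
      by_cases h3 : J l = 0
      · simp only [h3, decide_true, if_true, Y, Fin.cons_zero]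
      · obtain ⟨j, hj⟩ := Fin.exists_succ_eq.2 h3
        simp only [← hj, Y, Fin.cons_succ, Fin.succ_ne_zero, decide_false, Bool.false_eq_true,
          if_false]
    have e2 : ∀ x, ∏ l, U x (J l) = ∏ l ∈ Finset.univ.filter (fun l => ¬ decide (J l = 0) = true),
        ∑ l', (Fin.cons 0 u : Fin (k + 1) → Fin d → ℝ) (J l) l' * x l' := by
      intro x
      rw [Finset.prod_filter]
      refine Finset.prod_congr rfl fun l _ => ?_
      by_cases h3 : J l = 0
      · simp only [h3, decide_true, not_true_eq_false, if_false, U, Fin.cons_zero]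
      · obtain ⟨j, hj⟩ := Fin.exists_succ_eq.2 h3
        simp only [← hj, U, Fin.cons_succ, Fin.succ_ne_zero, decide_false, Bool.false_eq_true,
          not_false_eq_true, if_true]
    have e3 : c J = fun x => (∏ l ∈ Finset.univ.filter (fun l => ¬ decide (J l = 0) = true),
        ∑ l', (Fin.cons 0 u : Fin (k + 1) → Fin d → ℝ) (J l) l' * x l') * pairing S x := by
      funext x
      simp only [c]
      rw [e1, e2]
    have hcard : (Finset.univ.filter (fun l => ¬ decide (J l = 0) = true)).card + b J = r := by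
      have h4 := Finset.card_filter_add_card_filter_not (s := (Finset.univ : Finset (Fin r)))
        (fun l => decide (J l = 0) = true)
      rw [Finset.card_univ, Fintype.card_fin] at h4
      change (Finset.univ.filter (fun l => ¬ decide (J l = 0) = true)).card +
        (Finset.univ.filter (fun l => decide (J l = 0) = true)).card = r
      omega
    rw [e3]
    rcases Finset.eq_empty_or_nonempty
      (Finset.univ.filter (fun l => ¬ decide (J l = 0) = true)) with h4 | h4
    · rw [h4] at hcard ⊢
      simp only [Finset.prod_empty, one_mul]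
      rw [Finset.card_empty, zero_add] at hcard
      have h5 : ProdForm m (b J) (pairing S) := ProdForm.form (by omega) hJ S hS
      rwa [hcard] at h5
    · have h5 := prod_lin_form hm _ h4 (fun l => (Fin.cons 0 u : Fin (k + 1) → Fin d → ℝ) (J l))
      rcases Nat.eq_zero_or_pos (b J) with h6 | h6
      · have h7 : ∀ x, pairing S x = pairing S 0 := by
          intro x
          unfold pairing
          refine Finset.sum_congr rfl fun κ _ => ?_
          have hemp : IsEmpty (Fin (Finset.univ.filter
              (fun l => decide (J l = 0) = true)).card) := by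
            change IsEmpty (Fin (b J))
            rw [h6]
            infer_instance
          exact congrArg (S κ * ·) ((Fintype.prod_empty _).trans (Fintype.prod_empty _).symm)
        have h8 := h5.smul (pairing S 0)
        rw [h6, add_zero] at hcard
        rw [hcard] at h8
        have e9 : (fun x => (∏ l ∈ Finset.univ.filter (fun l => ¬ decide (J l = 0) = true),
            ∑ l', (Fin.cons 0 u : Fin (k + 1) → Fin d → ℝ) (J l) l' * x l') * pairing S x) =
            fun x => pairing S 0 * ∏ l ∈ Finset.univ.filter (fun l => ¬ decide (J l = 0) = true),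
            ∑ l', (Fin.cons 0 u : Fin (k + 1) → Fin d → ℝ) (J l) l' * x l' := by
          funext x
          rw [h7 x, mul_comm]
        rw [e9]
        exact h8
      · have h7 := ProdForm.mul h5 (ProdForm.form (m := m) h6 hJ S hS)
        have e10 : (Finset.univ.filter (fun l => ¬ decide (J l = 0) = true)).card +
            (Finset.univ.filter (fun l => decide (J l = 0) = true)).card = r := hcard
        rw [e10] at h7
        exact h7
  -- the norms of the pieces
  have hk0 : (0 : ℝ) ≤ k := Nat.cast_nonneg k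
  have hnorm : ∀ J, ballNorm p (c J) ≤ ((k : ℝ) + 1) ^ r * ((r : ℝ) ^ r * injNorm p T) := by
    intro J
    refine ballNorm_le hp0 fun x hx => ?_
    have h3 : |∏ l, U x (J l)| ≤ 1 := by
      rw [Finset.abs_prod]
      refine Finset.prod_le_one (fun _ _ => abs_nonneg _) fun l _ => ?_
      by_cases h4 : J l = 0
      · simp only [h4, U, Fin.cons_zero, abs_one, le_refl]
      · obtain ⟨j, hj⟩ := Fin.exists_succ_eq.2 h4
        simp only [← hj, U, Fin.cons_succ]
        exact hu j x hx
    have h4 : |ML T (fun l => Y x (J l))| ≤ ((k : ℝ) + 1) ^ r * ((r : ℝ) ^ r * injNorm p T) := by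
      refine ML_le_scaled hp (by omega) hT (by linarith) fun l => ?_
      by_cases h5 : J l = 0
      · simp only [h5, Y, Fin.cons_zero]
        exact hLn x hx
      · obtain ⟨j, hj⟩ := Fin.exists_succ_eq.2 h5
        simp only [← hj, Y, Fin.cons_succ]
        exact (hy j).trans (by linarith)
    simp only [c]
    rw [abs_mul]
    calc _ ≤ 1 * (((k : ℝ) + 1) ^ r * ((r : ℝ) ^ r * injNorm p T)) :=
          mul_le_mul h3 h4 (abs_nonneg _) zero_le_one
      _ = _ := one_mul _
  -- conclusion
  set s := Finset.univ.filter (fun J => b J ≤ m) with hs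
  refine ⟨s.card, fun j => c (s.equivFin.symm j).1, fun j => hpf _ ?_, fun x => ?_, ?_⟩
  · exact (Finset.mem_filter.1 (s.equivFin.symm j).2).2
  · rw [hsum x, ← Finset.sum_coe_sort s (fun J => c J x)]
    exact (s.equivFin.symm.sum_comp (fun J : s => c J.1 x)).symm
  · have h3 : ∑ j, ballNorm p (c (s.equivFin.symm j).1) ≤
        (s.card : ℝ) * (((k : ℝ) + 1) ^ r * ((r : ℝ) ^ r * injNorm p T)) := by
      refine (Finset.sum_le_sum fun j _ => hnorm _).trans ?_
      rw [Finset.sum_const, Finset.card_univ, Fintype.card_fin, nsmul_eq_mul]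
    have h4 : (s.card : ℝ) ≤ ((k : ℝ) + 1) ^ r := by
      have h5 : s.card ≤ (k + 1) ^ r := by
        refine (Finset.card_le_univ s).trans ?_
        rw [Fintype.card_fun, Fintype.card_fin, Fintype.card_fin]
      calc (s.card : ℝ) ≤ (((k + 1) ^ r : ℕ) : ℝ) := by exact_mod_cast h5
        _ = _ := by push_cast; ring
    have hT0 := injNorm_nonneg hp0 T
    have h6 : ((k : ℝ) + 1) ^ r ≤ ((K : ℝ) + 1) ^ r := by
      have h7 : (k : ℝ) ≤ K := by exact_mod_cast hkK
      exact pow_le_pow_left₀ (by linarith) (by linarith) r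
    calc _ ≤ _ := h3
      _ ≤ ((K : ℝ) + 1) ^ r * (((K : ℝ) + 1) ^ r * ((r : ℝ) ^ r * injNorm p T)) := by
          have h8 : 0 ≤ (r : ℝ) ^ r * injNorm p T := mul_nonneg (by positivity) hT0
          refine mul_le_mul (h4.trans h6) (mul_le_mul_of_nonneg_right h6 h8)
            (mul_nonneg (by positivity) h8) (by positivity)
      _ = _ := by
          rw [two_mul, pow_add]
          ring

end Pool.Agent.RedF
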