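import Mathlib

set_option autoImplicit false

/-!
# Sums of functions of a cone as convex combinations
-/

namespace Pool.Agent.RedF

theorem sum_mem_hull {X : Type*} (G : Set (X → ℝ)) (h0 : (fun _ => 0) ∈ G)
    (hG : ∀ q ∈ G, ∀ c : ℝ, (fun x => c * q x) ∈ G) {m : ℕ} (q : Fin m → X → ℝ) (B : Fin m → ℝ)
    (N : ℝ) (hq : ∀ j, q j ∈ G) (hB0 : ∀ j, 0 ≤ B j) (hB : ∀ j x, |q j x| ≤ B j)
    (hN : ∑ j, B j ≤ N) :
    (fun x => ∑ j, q j x) ∈ convexHull ℝ {f | f ∈ G ∧ ∀ x, |f x| ≤ N} := by
  classical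
  set W : ℝ := ∑ j, B j with hW
  have hW0 : 0 ≤ W := Finset.sum_nonneg fun j _ => hB0 j
  have hzero : (fun _ => 0 : X → ℝ) ∈ {f | f ∈ G ∧ ∀ x, |f x| ≤ N} := by
    refine ⟨h0, fun x => ?_⟩
    rw [abs_zero]
    exact hW0.trans hN
  have hq0 : ∀ j, B j = 0 → ∀ x, q j x = 0 := by
    intro j hj x
    have := hB j x
    rw [hj] at this
    exact abs_nonpos_iff.1 this
  rcases hW0.eq_or_lt with hW1 | hW1
  · -- all functions are zero
    have hBz : ∀ j, B j = 0 := by
      intro j
      have := (Finset.sum_eq_zero_iff_of_nonneg (fun i _ => hB0 i)).1 hW1.symm j (Finset.mem_univ j)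
      exact this
    have : (fun x => ∑ j, q j x) = fun _ => 0 := by
      funext x
      exact Finset.sum_eq_zero fun j _ => hq0 j (hBz j) x
    rw [this]
    exact subset_convexHull ℝ _ hzero
  · let z : Fin m → X → ℝ := fun j => if B j = 0 then (fun _ => 0) else fun x => (W / B j) * q j x
    have hz : ∀ j ∈ Finset.univ, z j ∈ convexHull ℝ {f | f ∈ G ∧ ∀ x, |f x| ≤ N} := by
      intro j _
      refine subset_convexHull ℝ _ ?_
      by_cases hj : B j = 0
      · simp only [z, hj, if_true]
        exact hzero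
      · simp only [z, hj, if_false]
        refine ⟨hG (q j) (hq j) _, fun x => ?_⟩
        have hBj : 0 < B j := lt_of_le_of_ne (hB0 j) (Ne.symm hj)
        rw [abs_mul, abs_of_pos (div_pos hW1 hBj)]
        calc W / B j * |q j x| ≤ W / B j * B j :=
              mul_le_mul_of_nonneg_left (hB j x) (div_pos hW1 hBj).le
          _ = W := div_mul_cancel₀ W hj
          _ ≤ N := hN
    have hsum := (convex_convexHull ℝ {f : X → ℝ | f ∈ G ∧ ∀ x, |f x| ≤ N}).sum_mem
      (t := Finset.univ) (w := fun j => B j / W) (z := z)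
      (fun j _ => div_nonneg (hB0 j) hW1.le)
      (by rw [← Finset.sum_div, ← hW, div_self hW1.ne']) hz
    have heq : (fun x => ∑ j, q j x) = ∑ j, (B j / W) • z j := by
      funext x
      rw [Finset.sum_apply]
      refine Finset.sum_congr rfl fun j _ => ?_
      rw [Pi.smul_apply, smul_eq_mul]
      by_cases hj : B j = 0
      · simp only [z, hj, if_true, hq0 j hj x]
        ring
      · simp only [z, hj, if_false]
        field_simp
    rw [heq]
    exact hsum

end Pool.Agent.RedF
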