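import Pool.Agent.RedF.Contr

set_option autoImplicit false

/-!
The expected supremum is convex: bounds pass to convex hulls.
-/

namespace Pool.Agent.RedF

open Finset MeasureTheory Pool.Agent.InjP

lemma EA_smul {X : Type*} {n : ℕ} (f : Fin n → X → ℝ) {a : ℝ} (ha : 0 ≤ a) :
    EA (fun i x => a * f i x) = a * EA f := by
  unfold EA
  rw [← integral_const_mul]
  refine integral_congr_ae (Filter.Eventually.of_forall fun g => ?_)
  simp only [AB]
  rw [Real.mul_iSup_of_nonneg ha]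
  refine iSup_congr fun x => ?_
  have e : ∑ i, g i * (a * f i x) = a * ∑ i, g i * f i x := by
    rw [Finset.mul_sum]
    exact Finset.sum_congr rfl fun i _ => by ring
  rw [e, abs_mul, abs_of_nonneg ha]

theorem EA_hull {X : Type*} [Nonempty X] {n : ℕ} (Q : Fin n → Set (X → ℝ)) (c : ℝ)
    (hQ : ∀ i, ∀ q ∈ Q i, Bd q) (h : ∀ f : Fin n → X → ℝ, (∀ i, f i ∈ Q i) → EA f ≤ c) :
    ∀ f : Fin n → X → ℝ, (∀ i, f i ∈ convexHull ℝ (Q i)) → EA f ≤ c := by
  have hconv : Convex ℝ {f : Fin n → X → ℝ | (∀ i, Bd (f i)) ∧ EA f ≤ c} := by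
    intro f hf u hu a b ha hb hab
    refine ⟨fun i => ((hf.1 i).smul a).add ((hu.1 i).smul b), ?_⟩
    have e : a • f + b • u = fun i x => a * f i x + b * u i x := rfl
    rw [e]
    have h1 := EA_add_le (f := fun i x => a * f i x) (h := fun i x => b * u i x)
      (fun i => (hf.1 i).smul a) (fun i => (hu.1 i).smul b)
    rw [EA_smul f ha, EA_smul u hb] at h1
    refine h1.trans ?_
    calc a * EA f + b * EA u ≤ a * c + b * c :=
          add_le_add (mul_le_mul_of_nonneg_left hf.2 ha) (mul_le_mul_of_nonneg_left hu.2 hb)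
      _ = c := by rw [← add_mul, hab, one_mul]
  intro f hf
  have h1 : f ∈ convexHull ℝ (Set.univ.pi Q) := mem_convexHull_pi fun i _ => hf i
  have h2 : Set.univ.pi Q ⊆ {f : Fin n → X → ℝ | (∀ i, Bd (f i)) ∧ EA f ≤ c} :=
    fun u hu => ⟨fun i => hQ i _ (hu i (Set.mem_univ i)), h u fun i => hu i (Set.mem_univ i)⟩
  exact (convexHull_min h2 hconv h1).2

end Pool.Agent.RedF
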