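import Pool.Agent.RedF.Main
import Pool.Agent.RedF.Few
import Pool.Agent.RedF.Hull2
import Pool.Agent.RedF.HullC

set_option autoImplicit false

/-!
Sums of products of forms, and forms of low degree along a subspace of small codimension.
-/

namespace Pool.Agent.RedF

open Finset MeasureTheory Pool.Agent.InjP

/-- sums of products of forms -/
theorem sum_bound {r : ℕ} {C : ℝ} (hC0 : 0 ≤ C) (hC : Bound r C) (m : ℕ) (p : ℝ) (hp : 2 ≤ p)
    (hm : ((2 * ((m + 1) / 2) : ℕ) : ℝ) ≤ p) {d n : ℕ} (hd : 1 ≤ d)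
    (f : Fin n → (Fin d → ℝ) → ℝ) (N : Fin n → ℝ)
    (hf : ∀ i, ∃ (k : ℕ) (q : Fin k → (Fin d → ℝ) → ℝ), (∀ j, ProdForm m r (q j)) ∧
      (∀ x, f i x = ∑ j, q j x) ∧ ∑ j, ballNorm p (q j) ≤ N i) :
    EA (fun i (x : Ball p d) => f i x.1) ≤ C * DD p d * Real.sqrt (∑ i, N i ^ 2) := by
  have hp0 : 0 < p := by linarith
  have hne : Nonempty (Ball p d) := ⟨⟨0, ball_zero hp0⟩⟩
  have hD := DD_nonneg p d
  set G : Set (Ball p d → ℝ) := {g | ∃ F : (Fin d → ℝ) → ℝ, (F = (fun _ => 0) ∨ ProdForm m r F) ∧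
    g = fun x => F x.1} with hG
  have hN0 : ∀ i, 0 ≤ N i := fun i => by
    obtain ⟨k, q, h1, _, h3⟩ := hf i
    exact (Finset.sum_nonneg fun j _ => ((h1 j).bdB hp0).norm_nonneg hp0).trans h3
  refine EA_hull (fun i => {g | g ∈ G ∧ ∀ x, |g x| ≤ N i}) _ (fun i g hg => ⟨N i, hg.2⟩) ?_ _ ?_
  · intro g hg
    have h1 : ∀ i, ∃ F : (Fin d → ℝ) → ℝ, (F = (fun _ => 0) ∨ ProdForm m r F) ∧
      g i = fun x => F x.1 := fun i => (hg i).1
    choose F hF hgF using h1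
    have e : g = fun i (x : Ball p d) => F i x.1 := funext hgF
    have h2 := hC m p hp hm d n hd F hF
    rw [← e] at h2
    refine h2.trans (mul_le_mul_of_nonneg_left (Real.sqrt_le_sqrt (Finset.sum_le_sum
      fun i _ => ?_)) (mul_nonneg hC0 hD))
    have hb : ∀ x, pn p x ≤ 1 → |F i x| ≤ N i := fun x hx => by
      have := (hg i).2 ⟨x, hx⟩
      rwa [hgF i] at this
    exact pow_le_pow_left₀ (BdB.norm_nonneg hp0 ⟨N i, hb⟩) (ballNorm_le hp0 hb) 2
  · intro i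
    obtain ⟨k, q, h1, h2, h3⟩ := hf i
    have e : (fun x : Ball p d => f i x.1) = fun x => ∑ j, q j x.1 := by
      funext x
      exact h2 x.1
    rw [e]
    refine sum_mem_hull G ⟨fun _ => 0, Or.inl rfl, rfl⟩ ?_ (fun j (x : Ball p d) => q j x.1)
      (fun j => ballNorm p (q j)) (N i) (fun j => ⟨q j, Or.inr (h1 j), rfl⟩)
      (fun j => ((h1 j).bdB hp0).norm_nonneg hp0) (fun j x => ((h1 j).bdB hp0).le_norm x.2) h3
    rintro g ⟨F, hF, rfl⟩ c
    refine ⟨fun x => c * F x, ?_, rfl⟩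
    rcases hF with h | h
    · left
      rw [h]
      funext x
      simp
    · right
      exact h.smul c

/-- forms of degree at most `m` along a subspace of codimension at most `K` -/
theorem few_bound {r : ℕ} (hr : 1 ≤ r) {C : ℝ} (hC0 : 0 ≤ C) (hC : Bound r C) (m : ℕ)
    (hm1 : 1 ≤ m) (p : ℝ) (hp : 2 ≤ p) (hm : ((2 * ((m + 1) / 2) : ℕ) : ℝ) ≤ p) {d n : ℕ}
    (hd : 1 ≤ d) (K : ℕ) (T : Fin n → (Fin r → Fin d) → ℝ) (hT : ∀ i, IsSymT (T i))
    (hK : ∀ i, ∃ e : Fin K → Fin d → ℝ, ∀ x z : Fin d → ℝ, (∀ j, ∑ l, e j l * z l = 0) →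
      ∃ P : Polynomial ℝ, P.natDegree ≤ m ∧ ∀ t : ℝ, pairing (T i) (x + t • z) = P.eval t) :
    EA (fun i (x : Ball p d) => pairing (T i) x.1) ≤
      (C * (r : ℝ) ^ r) * ((K : ℝ) + 1) ^ (2 * r) * DD p d *
        Real.sqrt (∑ i, injNorm p (T i) ^ 2) := by
  have hp0 : 0 < p := by linarith
  have hD := DD_nonneg p d
  have h1 := sum_bound hC0 hC m p hp hm hd (fun i => pairing (T i))
    (fun i => (r : ℝ) ^ r * ((K : ℝ) + 1) ^ (2 * r) * injNorm p (T i)) (fun i => by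
      obtain ⟨e, he⟩ := hK i
      exact few hr hm1 (by linarith) (hT i) e he)
  refine h1.trans ?_
  have hAK : 0 ≤ (r : ℝ) ^ r * ((K : ℝ) + 1) ^ (2 * r) := by positivity
  have h2 := sqrt_sum_le (n := n)
    (u := fun i => (r : ℝ) ^ r * ((K : ℝ) + 1) ^ (2 * r) * injNorm p (T i))
    (v := fun i => injNorm p (T i)) hAK (fun i => mul_nonneg hAK (injNorm_nonneg hp0 _))
    (fun i => le_rfl) (fun i => injNorm_nonneg hp0 _)
  calc _ ≤ C * DD p d * ((r : ℝ) ^ r * ((K : ℝ) + 1) ^ (2 * r) *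
        Real.sqrt (∑ i, injNorm p (T i) ^ 2)) :=
        mul_le_mul_of_nonneg_left h2 (mul_nonneg hC0 hD)
    _ = _ := by ring

end Pool.Agent.RedF
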