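import Pool.Agent.RedF.Aub
import Pool.Agent.RedF.Forms0

/-!
# MP_e7fc82_pr: forms depending on few linear forms are combinations of powers
-/

namespace Pool.Agent.RedF

open Finset Pool.Agent.InjP Pool.Agent.InjB

theorem powers_of_forms (r : ℕ) (hr : 1 ≤ r) : ∃ C : ℝ, 0 ≤ C ∧ ∀ p : ℝ, 2 ≤ p → ∀ (d K : ℕ)
    (T : (Fin r → Fin d) → ℝ), IsSymT T →
    (∃ e : Fin K → Fin d → ℝ, ∀ x y : Fin d → ℝ,
      (∀ j, ∑ l, e j l * x l = ∑ l, e j l * y l) → pairing T x = pairing T y) →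
    ∃ (m : ℕ) (c : Fin m → ℝ) (v : Fin m → Fin d → ℝ),
      (∀ x, pairing T x = ∑ j, c j * (∑ l, v j l * x l) ^ r) ∧
      (∀ j x, pn p x ≤ 1 → |∑ l, v j l * x l| ≤ 1) ∧
      ∑ j, |c j| ≤ C * (K : ℝ) ^ r * injNorm p T := by
  obtain ⟨N, c, s, hs, hc⟩ := prod_eq_powers r
  have hC0 : 0 ≤ (r : ℝ) ^ r * (r : ℝ) ^ r * ∑ i, |c i| :=
    mul_nonneg (by positivity) (Finset.sum_nonneg fun i _ => abs_nonneg _)
  refine ⟨_, hC0, fun p hp d K T hT ⟨e, he⟩ => ?_⟩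
  have hp1 : 1 ≤ p := by linarith
  have hp0 : 0 < p := by linarith
  obtain ⟨k, u, y, hk, hy, hu, hue⟩ := auerbach hp1 e
  obtain ⟨m, c', v, h1, h2, h3⟩ := forms_core hr c s hs hc hp1 hT u y hy hu (fun x =>
    he x _ fun j => (hue x j).symm)
  refine ⟨m, c', v, h1, h2, h3.trans ?_⟩
  have hkK : (k : ℝ) ^ r ≤ (K : ℝ) ^ r :=
    pow_le_pow_left₀ (by positivity) (by exact_mod_cast hk) r
  exact mul_le_mul_of_nonneg_right (mul_le_mul_of_nonneg_left hkK hC0) (injNorm_nonneg hp0 T)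

end Pool.Agent.RedF
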