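import Pool.Agent.InjB.Pol

/-!
# MP_e7fc82_pr: forms along a segment
-/

namespace Pool.Agent.RedF

open Finset Pool.Agent.InjP Pool.Agent.InjB

theorem line {r d : ℕ} (T : (Fin r → Fin d) → ℝ) (x y : Fin d → ℝ) :
    ∃ P : Polynomial ℝ, P.natDegree ≤ r ∧ ∀ t : ℝ, pairing T (x + t • (y - x)) = P.eval t := by
  classical
  refine ⟨∑ k : Fin r → Fin d, Polynomial.C (T k) *
    ∏ j, (Polynomial.C (x (k j)) + Polynomial.X * Polynomial.C ((y - x) (k j))), ?_, ?_⟩
  · refine Polynomial.natDegree_sum_le_of_forall_le _ _ fun k _ => ?_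
    refine (Polynomial.natDegree_C_mul_le _ _).trans ?_
    refine (Polynomial.natDegree_prod_le _ _).trans ?_
    calc ∑ j : Fin r, (Polynomial.C (x (k j)) +
          Polynomial.X * Polynomial.C ((y - x) (k j)) : Polynomial ℝ).natDegree
        ≤ ∑ _j : Fin r, 1 := by
          refine Finset.sum_le_sum fun j _ => ?_
          refine (Polynomial.natDegree_add_le _ _).trans ?_
          rw [Polynomial.natDegree_C]
          refine max_le (Nat.zero_le _) ?_
          refine (Polynomial.natDegree_mul_le).trans ?_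
          rw [Polynomial.natDegree_C, Polynomial.natDegree_X]
      _ = r := by simp
  · intro t
    rw [Polynomial.eval_finsetSum]
    unfold pairing
    refine Finset.sum_congr rfl fun k _ => ?_
    rw [Polynomial.eval_mul, Polynomial.eval_C, Polynomial.eval_prod]
    congr 1
    refine Finset.prod_congr rfl fun j _ => ?_
    simp only [Polynomial.eval_add, Polynomial.eval_mul, Polynomial.eval_C, Polynomial.eval_X,
      Pi.add_apply, Pi.smul_apply, smul_eq_mul]

theorem ball {d : ℕ} {p : ℝ} (hp : 1 ≤ p) {x y : Fin d → ℝ} (hx : pn p x ≤ 1) (hy : pn p y ≤ 1)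
    {t : ℝ} (h0 : 0 ≤ t) (h1 : t ≤ 1) : pn p (x + t • (y - x)) ≤ 1 := by
  have hp0 : 0 < p := lt_of_lt_of_le one_pos hp
  have e : x + t • (y - x) = (1 - t) • x + t • y := by
    funext j
    simp only [Pi.add_apply, Pi.smul_apply, Pi.sub_apply, smul_eq_mul]
    ring
  rw [e]
  refine (pn_add_le hp _ _).trans ?_
  rw [pn_smul hp0, pn_smul hp0, abs_of_nonneg (by linarith), abs_of_nonneg h0]
  have h2 : (1 - t) * pn p x ≤ (1 - t) * 1 := mul_le_mul_of_nonneg_left hx (by linarith)
  have h3 : t * pn p y ≤ t * 1 := mul_le_mul_of_nonneg_left hy h0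
  linarith

end Pool.Agent.RedF
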