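import Mathlib

namespace Pool.Agent.RedF

open Polynomial Finset

/-- nodes `j / M`, `j < M`. -/
lemma basis_bound {M : ℕ} (hM : 1 ≤ M) (s : Finset ℕ) (hs : ∀ j ∈ s, j < M) (i : ℕ) (hi : i ∈ s)
    {t : ℝ} (ht0 : 0 ≤ t) (ht1 : t ≤ 1) :
    |(Lagrange.basis s (fun j : ℕ => (j : ℝ) / M) i).eval t| ≤ (M : ℝ) ^ (s.card - 1) := by
  have hMp : (0 : ℝ) < M := by exact_mod_cast hM
  rw [Lagrange.basis, Polynomial.eval_prod, Finset.abs_prod, ← Finset.card_erase_of_mem hi]
  have : ∀ j ∈ s.erase i,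
      |(Lagrange.basisDivisor ((i : ℝ) / M) ((j : ℝ) / M)).eval t| ≤ (M : ℝ) := by
    intro j hj
    have hij : j ≠ i := Finset.ne_of_mem_erase hj
    have hjM : j < M := hs j (Finset.mem_of_mem_erase hj)
    rw [Lagrange.basisDivisor]
    simp only [eval_mul, eval_C, eval_sub, eval_X]
    rw [abs_mul, abs_inv]
    have h1 : |t - (j : ℝ) / M| ≤ 1 := by
      have hj0 : 0 ≤ (j : ℝ) / M := by positivity
      have hj1 : (j : ℝ) / M ≤ 1 := by
        rw [div_le_one hMp]; exact_mod_cast hjM.le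
      rw [abs_le]; constructor <;> linarith
    have h2 : (1 : ℝ) / M ≤ |(i : ℝ) / M - (j : ℝ) / M| := by
      rw [← sub_div, abs_div, abs_of_pos hMp]
      apply div_le_div_of_nonneg_right _ hMp.le
      have : (1 : ℤ) ≤ |(i : ℤ) - (j : ℤ)| := by
        apply Int.one_le_abs
        intro h
        apply hij
        have := sub_eq_zero.mp h
        exact_mod_cast this.symm
      have h3 : ((1 : ℤ) : ℝ) ≤ ((|(i : ℤ) - (j : ℤ)| : ℤ) : ℝ) := by exact_mod_cast this
      simpa using h3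
    have h4 : |(i : ℝ) / M - (j : ℝ) / M|⁻¹ ≤ M := by
      rw [inv_le_comm₀ (lt_of_lt_of_le (by positivity) h2) hMp]
      simpa using h2
    calc |(i : ℝ) / M - (j : ℝ) / M|⁻¹ * |t - (j : ℝ) / M| ≤ M * 1 :=
          mul_le_mul h4 h1 (abs_nonneg _) hMp.le
      _ = M := mul_one _
  calc ∏ j ∈ s.erase i, |(Lagrange.basisDivisor ((i : ℝ) / M) ((j : ℝ) / M)).eval t|
      ≤ ∏ _j ∈ s.erase i, (M : ℝ) := Finset.prod_le_prod (fun _ _ => abs_nonneg _) this
    _ = (M : ℝ) ^ (s.erase i).card := by rw [Finset.prod_const]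

lemma eval_bound {M a : ℕ} (hM : 1 ≤ M) (s : Finset ℕ) (hs : ∀ j ∈ s, j < M) (hc : s.card = a + 1)
    (P : ℝ[X]) (hP : P.natDegree ≤ a) {t : ℝ} (ht0 : 0 ≤ t) (ht1 : t ≤ 1) {D : ℝ}
    (hD : ∀ j ∈ s, |P.eval ((j : ℝ) / M)| ≤ D) :
    |P.eval t| ≤ (a + 1) * (M : ℝ) ^ a * D := by
  have hMp : (0 : ℝ) < M := by exact_mod_cast hM
  have hinj : Set.InjOn (fun j : ℕ => (j : ℝ) / M) s := by
    intro x _ y _ hxy
    simp only at hxy
    have := (div_left_inj' hMp.ne').mp hxy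
    exact_mod_cast this
  have hdeg : P.degree < s.card := by
    rw [hc]
    refine lt_of_le_of_lt Polynomial.degree_le_natDegree ?_
    exact_mod_cast Nat.lt_succ_of_le hP
  have hEq := Lagrange.eq_interpolate hinj hdeg
  have hval : P.eval t = ∑ i ∈ s, P.eval ((i : ℝ) / M) *
      (Lagrange.basis s (fun j : ℕ => (j : ℝ) / M) i).eval t := by
    conv_lhs => rw [hEq]
    rw [Lagrange.interpolate_apply, Polynomial.eval_finsetSum]
    refine Finset.sum_congr rfl fun i _ => ?_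
    rw [eval_mul, eval_C]
  rw [hval]
  calc |∑ i ∈ s, P.eval ((i : ℝ) / M) * (Lagrange.basis s (fun j : ℕ => (j : ℝ) / M) i).eval t|
      ≤ ∑ i ∈ s, |P.eval ((i : ℝ) / M) *
          (Lagrange.basis s (fun j : ℕ => (j : ℝ) / M) i).eval t| := Finset.abs_sum_le_sum_abs _ _
    _ ≤ ∑ _i ∈ s, D * (M : ℝ) ^ a := by
        refine Finset.sum_le_sum fun i hi => ?_
        rw [abs_mul]
        have hb := basis_bound hM s hs i hi ht0 ht1
        rw [hc, Nat.add_sub_cancel] at hb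
        exact mul_le_mul (hD i hi) hb (abs_nonneg _) ((abs_nonneg _).trans (hD i hi))
    _ = (a + 1) * (M : ℝ) ^ a * D := by
        rw [Finset.sum_const, hc, nsmul_eq_mul]; push_cast; ring

/-- Two polynomials of bounded degrees on `[0,1]`: at one point of `[0,1]` the product is at
least a constant times `|P 0| |Q 1|`. -/
theorem seg_aux (a b : ℕ) : ∃ c : ℝ, 0 < c ∧ ∀ P Q : ℝ[X], P.natDegree ≤ a → Q.natDegree ≤ b →
    ∃ t : ℝ, 0 ≤ t ∧ t ≤ 1 ∧ c * (|P.eval 0| * |Q.eval 1|) ≤ |P.eval t * Q.eval t| := by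
  classical
  set M : ℕ := a + b + 1 with hMdef
  have hM : 1 ≤ M := by omega
  have hMp : (0 : ℝ) < M := by exact_mod_cast hM
  set dA : ℝ := 1 / (2 * ((a + 1) * (M : ℝ) ^ a)) with hdA
  set dB : ℝ := 1 / (2 * ((b + 1) * (M : ℝ) ^ b)) with hdB
  have hKA : (0 : ℝ) < (a + 1) * (M : ℝ) ^ a := by positivity
  have hKB : (0 : ℝ) < (b + 1) * (M : ℝ) ^ b := by positivity
  have hdA0 : 0 < dA := by positivity
  have hdB0 : 0 < dB := by positivity
  refine ⟨dA * dB, by positivity, fun P Q hP hQ => ?_⟩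
  by_contra hcon
  push Not at hcon
  have hp : 0 < |P.eval 0| := by
    by_contra h
    have h0 : |P.eval 0| = 0 := le_antisymm (not_lt.mp h) (abs_nonneg _)
    have := hcon 0 le_rfl zero_le_one
    rw [h0, zero_mul, mul_zero] at this
    exact absurd this (not_lt.mpr (abs_nonneg _))
  have hq : 0 < |Q.eval 1| := by
    by_contra h
    have h0 : |Q.eval 1| = 0 := le_antisymm (not_lt.mp h) (abs_nonneg _)
    have := hcon 0 le_rfl zero_le_one
    rw [h0, mul_zero, mul_zero] at this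
    exact absurd this (not_lt.mpr (abs_nonneg _))
  set S := (Finset.range M).filter fun j : ℕ => |P.eval ((j : ℝ) / M)| ≤ dA * |P.eval 0| with hS
  set T := (Finset.range M).filter fun j : ℕ => |Q.eval ((j : ℝ) / M)| ≤ dB * |Q.eval 1| with hT
  have hcov : Finset.range M ⊆ S ∪ T := by
    intro j hj
    rw [Finset.mem_union, hS, hT, Finset.mem_filter, Finset.mem_filter]
    by_contra hn
    push Not at hn
    have h1 := hn.1 hj
    have h2 := hn.2 hj
    have hjM : j < M := Finset.mem_range.mp hj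
    have h0 : 0 ≤ (j : ℝ) / M := by positivity
    have h01 : (j : ℝ) / M ≤ 1 := by rw [div_le_one hMp]; exact_mod_cast hjM.le
    have h3 := hcon _ h0 h01
    rw [abs_mul] at h3
    have h4 : dA * |P.eval 0| * (dB * |Q.eval 1|) ≤
        |P.eval ((j : ℝ) / M)| * |Q.eval ((j : ℝ) / M)| :=
      mul_le_mul h1.le h2.le (by positivity) (abs_nonneg _)
    nlinarith
  have hcard : a + b + 1 ≤ S.card + T.card := by
    calc a + b + 1 = (Finset.range M).card := by rw [Finset.card_range]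
      _ ≤ (S ∪ T).card := Finset.card_le_card hcov
      _ ≤ S.card + T.card := Finset.card_union_le _ _
  rcases Nat.lt_or_ge a S.card with h | h
  · obtain ⟨s, hsS, hsc⟩ := Finset.exists_subset_card_eq (n := a + 1) (s := S) h
    have := eval_bound hM s (fun j hj => Finset.mem_range.mp (Finset.mem_filter.mp (hsS hj)).1)
      hsc P hP le_rfl zero_le_one (D := dA * |P.eval 0|)
      (fun j hj => (Finset.mem_filter.mp (hsS hj)).2)
    have h2 : (a + 1) * (M : ℝ) ^ a * (dA * |P.eval 0|) = |P.eval 0| / 2 := by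
      rw [hdA]; field_simp
    rw [h2] at this
    linarith
  · have h' : b + 1 ≤ T.card := by omega
    obtain ⟨s, hsS, hsc⟩ := Finset.exists_subset_card_eq (n := b + 1) (s := T) h'
    have := eval_bound hM s (fun j hj => Finset.mem_range.mp (Finset.mem_filter.mp (hsS hj)).1)
      hsc Q hQ zero_le_one le_rfl (D := dB * |Q.eval 1|)
      (fun j hj => (Finset.mem_filter.mp (hsS hj)).2)
    have h2 : (b + 1) * (M : ℝ) ^ b * (dB * |Q.eval 1|) = |Q.eval 1| / 2 := by
      rw [hdB]; field_simp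
    rw [h2] at this
    linarith

theorem seg (a b : ℕ) : ∃ C : ℝ, 0 ≤ C ∧ ∀ (P Q : Polynomial ℝ) (m : ℝ), P.natDegree ≤ a →
    Q.natDegree ≤ b → (∀ t : ℝ, 0 ≤ t → t ≤ 1 → |P.eval t * Q.eval t| ≤ m) →
    |P.eval 0| * |Q.eval 1| ≤ C * m := by
  obtain ⟨c, hc, h⟩ := seg_aux a b
  refine ⟨c⁻¹, by positivity, fun P Q m hP hQ hm => ?_⟩
  obtain ⟨t, h0, h1, ht⟩ := h P Q hP hQ
  have h2 := ht.trans (hm t h0 h1)
  rw [inv_mul_eq_div, le_div_iff₀ hc]
  linarith

end Pool.Agent.RedF
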