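import Pool.Agent.InjB.Pol
import Pool.Agent.RedF.Seg
import Pool.Agent.RedF.Line

/-!
# MP_e7fc82_pr: products of forms, `|f x| |h y| ≤ C sup |f h|`
-/

namespace Pool.Agent.RedF

open Finset Pool.Agent.InjP Pool.Agent.InjB

/-- along every line `f` is a polynomial of degree at most `a` -/
def LineDeg {d : ℕ} (a : ℕ) (f : (Fin d → ℝ) → ℝ) : Prop :=
  ∀ x y, ∃ P : Polynomial ℝ, P.natDegree ≤ a ∧ ∀ t : ℝ, f (x + t • (y - x)) = P.eval t

theorem lineDeg_pairing {r d : ℕ} (T : (Fin r → Fin d) → ℝ) : LineDeg r (pairing T) :=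
  fun x y => line T x y

theorem LineDeg.mul {d a b : ℕ} {f h : (Fin d → ℝ) → ℝ} (hf : LineDeg a f) (hh : LineDeg b h) :
    LineDeg (a + b) (fun x => f x * h x) := by
  intro x y
  obtain ⟨P, hP, hPe⟩ := hf x y
  obtain ⟨Q, hQ, hQe⟩ := hh x y
  refine ⟨P * Q, Polynomial.natDegree_mul_le.trans (Nat.add_le_add hP hQ), fun t => ?_⟩
  rw [Polynomial.eval_mul, ← hPe t, ← hQe t]

theorem LineDeg.mono {d a b : ℕ} {f : (Fin d → ℝ) → ℝ} (hf : LineDeg a f) (hab : a ≤ b) :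
    LineDeg b f := by
  intro x y
  obtain ⟨P, hP, hPe⟩ := hf x y
  exact ⟨P, hP.trans hab, hPe⟩

theorem LineDeg.const {d : ℕ} (c : ℝ) : LineDeg 0 (fun _ : Fin d → ℝ => c) := by
  intro x y
  exact ⟨Polynomial.C c, by rw [Polynomial.natDegree_C], fun t => by rw [Polynomial.eval_C]⟩

theorem LineDeg.prod {d : ℕ} {ι : Type*} (s : Finset ι) (a : ι → ℕ) (f : ι → (Fin d → ℝ) → ℝ)
    (hf : ∀ i ∈ s, LineDeg (a i) (f i)) : LineDeg (∑ i ∈ s, a i) (fun x => ∏ i ∈ s, f i x) := by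
  classical
  induction s using Finset.induction_on with
  | empty =>
    simp only [Finset.sum_empty, Finset.prod_empty]
    exact LineDeg.const 1
  | insert i s hi ih =>
    simp only [Finset.sum_insert hi, Finset.prod_insert hi]
    exact (hf i (Finset.mem_insert_self i s)).mul
      (ih fun j hj => hf j (Finset.mem_insert_of_mem hj))

theorem prod_le (a b : ℕ) : ∃ C : ℝ, 0 ≤ C ∧ ∀ p : ℝ, 1 ≤ p → ∀ (d : ℕ)
    (f h : (Fin d → ℝ) → ℝ), LineDeg a f → LineDeg b h → ∀ m : ℝ,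
    (∀ x, pn p x ≤ 1 → |f x * h x| ≤ m) →
    ∀ x y, pn p x ≤ 1 → pn p y ≤ 1 → |f x| * |h y| ≤ C * m := by
  obtain ⟨C, hC, H⟩ := seg a b
  refine ⟨C, hC, fun p hp d f h hf hh m hm x y hx hy => ?_⟩
  obtain ⟨P, hP, hPe⟩ := hf x y
  obtain ⟨Q, hQ, hQe⟩ := hh x y
  have key := H P Q m hP hQ (fun t h0 h1 => by
    rw [← hPe t, ← hQe t]
    exact hm _ (ball hp hx hy h0 h1))
  have e0 : P.eval 0 = f x := by
    rw [← hPe 0, zero_smul, add_zero]
  have e1 : Q.eval 1 = h y := by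
    rw [← hQe 1, one_smul, add_sub_cancel]
  rw [e0, e1] at key
  exact key

/-- `|A| |B| ≤ C sup |A B|` for forms -/
theorem injNorm_mul_le (a b : ℕ) : ∃ C : ℝ, 0 ≤ C ∧ ∀ (p : ℝ), 1 ≤ p → ∀ (d : ℕ)
    (A : (Fin a → Fin d) → ℝ) (B : (Fin b → Fin d) → ℝ) (m : ℝ),
    (∀ x : Fin d → ℝ, pn p x ≤ 1 → |pairing A x * pairing B x| ≤ m) →
    injNorm p A * injNorm p B ≤ C * m := by
  obtain ⟨C, hC, h⟩ := prod_le a b
  refine ⟨C, hC, fun p hp d A B m hm => ?_⟩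
  have hp0 : 0 < p := lt_of_lt_of_le one_pos hp
  have hne : ({y | ∃ x : Fin d → ℝ, pn p x ≤ 1 ∧ y = |pairing A x|}).Nonempty :=
    ⟨_, 0, by rw [pn_zero hp0]; exact zero_le_one, rfl⟩
  have hneB : ({y | ∃ x : Fin d → ℝ, pn p x ≤ 1 ∧ y = |pairing B x|}).Nonempty :=
    ⟨_, 0, by rw [pn_zero hp0]; exact zero_le_one, rfl⟩
  have hpt : ∀ x y : Fin d → ℝ, pn p x ≤ 1 → pn p y ≤ 1 →
      |pairing A x| * |pairing B y| ≤ C * m :=
    h p hp d _ _ (lineDeg_pairing A) (lineDeg_pairing B) m hm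
  have hA : ∀ y : Fin d → ℝ, pn p y ≤ 1 → injNorm p A * |pairing B y| ≤ C * m := by
    intro y hy
    rcases eq_or_lt_of_le (abs_nonneg (pairing B y)) with h0 | h0
    · rw [← h0, mul_zero]
      have := hpt 0 y (by rw [pn_zero hp0]; exact zero_le_one) hy
      rw [← h0, mul_zero] at this
      exact this
    · rw [← le_div_iff₀ h0]
      refine csSup_le hne ?_
      rintro _ ⟨x, hx, rfl⟩
      rw [le_div_iff₀ h0]
      exact hpt x y hx hy
  rcases eq_or_lt_of_le (injNorm_nonneg hp0 A) with h0 | h0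
  · rw [← h0, zero_mul]
    have := hA 0 (by rw [pn_zero hp0]; exact zero_le_one)
    rw [← h0, zero_mul] at this
    exact this
  · rw [mul_comm, ← le_div_iff₀ h0]
    refine csSup_le hneB ?_
    rintro _ ⟨y, hy, rfl⟩
    rw [le_div_iff₀ h0, mul_comm]
    exact hA y hy

end Pool.Agent.RedF
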