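import Pool.Agent.RedF.Basic
import Pool.Agent.RedF.Prod
import Pool.Agent.InjB.Uni

set_option autoImplicit false

/-!
The inequality for products of forms, by induction on the degree.
-/

namespace Pool.Agent.RedF

open Finset MeasureTheory Pool.Agent.InjP

/-- the power of `d` and the logarithm -/
noncomputable def DD (p : ℝ) (d : ℕ) : ℝ :=
  Real.sqrt (1 + Real.log d) * (d : ℝ) ^ (1 / 2 - 1 / p)

lemma DD_nonneg (p : ℝ) (d : ℕ) : 0 ≤ DD p d :=
  mul_nonneg (Real.sqrt_nonneg _) (Real.rpow_nonneg (Nat.cast_nonneg _) _)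

/-- the inequality for families of products of forms of degree `r` (or zero) -/
def Bound (r : ℕ) (C : ℝ) : Prop :=
  ∀ (m : ℕ) (p : ℝ), 2 ≤ p → ((2 * ((m + 1) / 2) : ℕ) : ℝ) ≤ p → ∀ d n : ℕ, 1 ≤ d →
    ∀ f : Fin n → (Fin d → ℝ) → ℝ, (∀ i, f i = (fun _ => 0) ∨ ProdForm m r (f i)) →
      EA (fun i (x : Ball p d) => f i x.1) ≤ C * DD p d * Real.sqrt (∑ i, ballNorm p (f i) ^ 2)

lemma EA_zero {X : Type*} [Nonempty X] {n : ℕ} : EA (fun (_ : Fin n) (_ : X) => (0 : ℝ)) = 0 := by
  unfold EA AB
  simp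

lemma EA_sum_le {X : Type*} [Nonempty X] {n : ℕ} {ι : Type*} (s : Finset ι)
    (F : ι → Fin n → X → ℝ) (hF : ∀ t i, Bd (F t i)) :
    EA (fun i x => ∑ t ∈ s, F t i x) ≤ ∑ t ∈ s, EA (F t) := by
  classical
  have hb : ∀ (s : Finset ι) (i : Fin n), Bd (fun x => ∑ t ∈ s, F t i x) := by
    intro s i
    induction s using Finset.induction_on with
    | empty => exact ⟨0, fun x => by simp⟩
    | insert t s hts ih =>
      have h1 := (hF t i).add ih
      have e : (fun x => F t i x + ∑ t ∈ s, F t i x) = fun x => ∑ t ∈ insert t s, F t i x := by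
        funext x
        rw [Finset.sum_insert hts]
      rwa [e] at h1
  induction s using Finset.induction_on with
  | empty => simp only [Finset.sum_empty]; exact EA_zero.le
  | insert t s hts ih =>
    have h1 := EA_add_le (f := F t) (h := fun i x => ∑ t ∈ s, F t i x) (hF t) (hb s)
    have e : (fun i x => F t i x + ∑ t ∈ s, F t i x) =
        fun (i : Fin n) (x : X) => ∑ t ∈ insert t s, F t i x := by
      funext i x
      rw [Finset.sum_insert hts]
    rw [e] at h1
    rw [Finset.sum_insert hts]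
    linarith

lemma EA_injNorm {p : ℝ} (hp : 0 < p) {r d n : ℕ} (T : Fin n → (Fin r → Fin d) → ℝ) :
    EA (fun i (x : Ball p d) => pairing (T i) x.1) =
      ∫ g : Fin n → ℝ, injNorm p (∑ i, g i • T i) ∂gauss n := by
  unfold EA AB
  refine integral_congr_ae (Filter.Eventually.of_forall fun g => ?_)
  have hne : Nonempty (Ball p d) := ⟨⟨0, ball_zero hp⟩⟩
  have e : ∀ x : Fin d → ℝ, |∑ i, g i * pairing (T i) x| = |pairing (∑ i, g i • T i) x| :=
    fun x => by rw [pairing_sum]
  refine le_antisymm ?_ ?_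
  · refine ciSup_le fun x => ?_
    rw [e]
    exact le_injNorm_of hp _ x.2
  · refine csSup_le ⟨_, 0, ball_zero hp, rfl⟩ ?_
    rintro _ ⟨x, hx, rfl⟩
    rw [← e]
    refine le_ciSup (f := fun x : Ball p d => |∑ i, g i * pairing (T i) x.1|) ?_ ⟨x, hx⟩
    refine ⟨injNorm p (∑ i, g i • T i), ?_⟩
    rintro _ ⟨y, rfl⟩
    simp only []
    rw [e]
    exact le_injNorm_of hp _ y.2

lemma ProdForm.lineDeg {d m r : ℕ} {f : (Fin d → ℝ) → ℝ} (h : ProdForm m r f) :
    LineDeg r f := by
  induction h with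
  | form _ _ S _ => exact lineDeg_pairing S
  | mul _ _ ih1 ih2 => exact LineDeg.mul ih1 ih2

/-- the norm of a product -/
lemma norm_prod (a b : ℕ) : ∃ K : ℝ, 0 ≤ K ∧ ∀ (m : ℕ) (p : ℝ), 2 ≤ p → ∀ (d : ℕ)
    (f h : (Fin d → ℝ) → ℝ), ProdForm m a f → ProdForm m b h →
    ballNorm p f * ballNorm p h ≤ K * ballNorm p (fun x => f x * h x) := by
  obtain ⟨K, hK, hP⟩ := prod_le a b
  refine ⟨K, hK, fun m p hp d f h hf hh => ?_⟩
  have hp0 : 0 < p := by linarith
  have hb := (ProdForm.mul hf hh).bdB hp0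
  have h1 := hP p (by linarith) d f h hf.lineDeg hh.lineDeg _ fun x hx => hb.le_norm hx
  have h2 : ∀ y, pn p y ≤ 1 → ballNorm p f * |h y| ≤ K * ballNorm p (fun x => f x * h x) := by
    intro y hy
    rcases eq_or_lt_of_le (abs_nonneg (h y)) with h3 | h3
    · rw [← h3, mul_zero]
      exact mul_nonneg hK (hb.norm_nonneg hp0)
    · rw [← le_div_iff₀ h3]
      exact ballNorm_le hp0 fun x hx => by
        rw [le_div_iff₀ h3]
        exact h1 x y hx hy
  rcases eq_or_lt_of_le ((hf.bdB hp0).norm_nonneg hp0) with h3 | h3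
  · rw [← h3, zero_mul]
    exact mul_nonneg hK (hb.norm_nonneg hp0)
  · rw [mul_comm, ← le_div_iff₀ h3]
    exact ballNorm_le hp0 fun y hy => by
      rw [le_div_iff₀ h3, mul_comm]
      exact h2 y hy

/-- the atomic class -/
lemma atom_bound (r : ℕ) : ∃ C : ℝ, 0 ≤ C ∧ ∀ (m : ℕ) (p : ℝ), 2 ≤ p →
    ((2 * ((m + 1) / 2) : ℕ) : ℝ) ≤ p → ∀ d n : ℕ, 1 ≤ d →
    ∀ f : Fin n → (Fin d → ℝ) → ℝ, (∀ i, f i = (fun _ => 0) ∨
      (1 ≤ r ∧ r ≤ m ∧ ∃ S : (Fin r → Fin d) → ℝ, IsSymT S ∧ f i = pairing S)) →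
      EA (fun i (x : Ball p d) => f i x.1) ≤ C * DD p d * Real.sqrt (∑ i, ballNorm p (f i) ^ 2) := by
  rcases Nat.eq_zero_or_pos r with hr | hr
  · refine ⟨0, le_rfl, fun m p hp hm d n hd f hf => ?_⟩
    have hne : Nonempty (Ball p d) := ⟨⟨0, ball_zero (by linarith)⟩⟩
    have h0 : f = fun _ _ => 0 := by
      funext i
      rcases hf i with h | h
      · exact h
      · omega
    rw [h0]
    simp only [zero_mul]
    exact EA_zero.le
  · obtain ⟨C, hC, hU⟩ := Pool.Agent.InjB.uni_all (r := r) hr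
    refine ⟨C, hC, fun m p hp hm d n hd f hf => ?_⟩
    have hp0 : 0 < p := by linarith
    have hne : Nonempty (Ball p d) := ⟨⟨0, ball_zero hp0⟩⟩
    by_cases hrm : r ≤ m
    · have h1 : ∀ i, ∃ S : (Fin r → Fin d) → ℝ, IsSymT S ∧ f i = pairing S := by
        intro i
        rcases hf i with h | ⟨_, _, S, hS, h⟩
        · refine ⟨fun _ => 0, fun _ _ => rfl, ?_⟩
          rw [h]
          funext x
          simp [pairing]
        · exact ⟨S, hS, h⟩
      choose S hS hfS using h1
      have h2 := (hU p hp d n hd S hS).2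
      rw [← EA_injNorm hp0 S] at h2
      have e1 : (fun (i : Fin n) (x : Ball p d) => pairing (S i) x.1) = fun i x => f i x.1 := by
        funext i x
        rw [hfS i]
      have e2 : max p ((2 * ((r + 1) / 2) : ℕ) : ℝ) = p := by
        refine max_eq_left (le_trans ?_ hm)
        exact_mod_cast (by omega : 2 * ((r + 1) / 2) ≤ 2 * ((m + 1) / 2))
      have e3 : ∀ i, injNorm p (S i) = ballNorm p (f i) := fun i => by
        rw [hfS i]
        rfl
      rw [e1, e2] at h2
      simp only [e3] at h2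
      unfold DD
      calc _ ≤ _ := h2
        _ = _ := by ring
    · have h0 : f = fun _ _ => 0 := by
        funext i
        rcases hf i with h | h
        · exact h
        · exact absurd h.2.1 hrm
      rw [h0]
      simp only []
      rw [EA_zero]
      exact mul_nonneg (mul_nonneg hC (DD_nonneg _ _)) (Real.sqrt_nonneg _)

lemma sqrt_sum_le {n : ℕ} {u v : Fin n → ℝ} {K : ℝ} (hK : 0 ≤ K) (hu : ∀ i, 0 ≤ u i)
    (h : ∀ i, u i ≤ K * v i) (hv : ∀ i, 0 ≤ v i) :
    Real.sqrt (∑ i, u i ^ 2) ≤ K * Real.sqrt (∑ i, v i ^ 2) := by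
  have h1 : ∑ i, u i ^ 2 ≤ K ^ 2 * ∑ i, v i ^ 2 := by
    rw [Finset.mul_sum]
    refine Finset.sum_le_sum fun i _ => ?_
    rw [← mul_pow]
    exact pow_le_pow_left₀ (hu i) (h i) 2
  refine (Real.sqrt_le_sqrt h1).trans ?_
  rw [Real.sqrt_mul (by positivity), Real.sqrt_sq hK]

theorem main : ∀ r : ℕ, ∃ C : ℝ, 0 ≤ C ∧ Bound r C := by
  intro r
  induction r using Nat.strong_induction_on with
  | _ r ih =>
  have ih' : ∀ t : ℕ, ∃ C : ℝ, 0 ≤ C ∧ (t < r → Bound t C) := by
    intro t
    by_cases ht : t < r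
    · obtain ⟨C, h1, h2⟩ := ih t ht
      exact ⟨C, h1, fun _ => h2⟩
    · exact ⟨0, le_rfl, fun h => absurd h ht⟩
  choose C hC0 hC using ih'
  choose K hK0 hK using norm_prod
  obtain ⟨A, hA0, hA⟩ := atom_bound r
  refine ⟨A + ∑ t ∈ Finset.Ico 1 r, (4 * C t + 4 * C (r - t)) * K t (r - t), ?_, ?_⟩
  · refine add_nonneg hA0 (Finset.sum_nonneg fun t _ => mul_nonneg ?_ (hK0 _ _))
    have := hC0 t
    have := hC0 (r - t)
    positivity
  intro m p hp hm d n hd f hf
  classical
  have hp0 : 0 < p := by linarith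
  have hne : Nonempty (Ball p d) := ⟨⟨0, ball_zero hp0⟩⟩
  have hD := DD_nonneg p d
  -- the type of each function
  have hty : ∀ i, ∃ (t : ℕ) (F H : (Fin d → ℝ) → ℝ), (t = 0 ∨ t ∈ Finset.Ico 1 r) ∧
      (t = 0 → (f i = (fun _ => 0) ∨
        (1 ≤ r ∧ r ≤ m ∧ ∃ S : (Fin r → Fin d) → ℝ, IsSymT S ∧ f i = pairing S))) ∧
      (t ≠ 0 → ProdForm m t F ∧ ProdForm m (r - t) H ∧ f i = fun x => F x * H x) := by
    intro i
    rcases hf i with h | h
    · exact ⟨0, fun _ => 0, fun _ => 0, Or.inl rfl, fun _ => Or.inl h, fun h => absurd rfl h⟩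
    · rcases h.cases' with ⟨h1, S, hS, h2⟩ | ⟨a, b, F, H, ha, hb, hab, hF, hH, h2⟩
      · exact ⟨0, fun _ => 0, fun _ => 0, Or.inl rfl, fun _ => Or.inr ⟨h.pos, h1, S, hS, h2⟩,
          fun h => absurd rfl h⟩
      · refine ⟨a, F, H, Or.inr (Finset.mem_Ico.2 ⟨ha, by omega⟩), fun h => by omega, fun _ => ?_⟩
        have e : r - a = b := by omega
        rw [e]
        exact ⟨hF, hH, h2⟩
  choose τ F H hτ h0 h1 using hty
  have fB : ∀ i, BdB p (f i) := fun i => by
    rcases hf i with h | h
    · rw [h]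
      exact ⟨0, fun x _ => by simp⟩
    · exact h.bdB hp0
  -- splitting
  have hsplit : (fun (i : Fin n) (x : Ball p d) => f i x.1) = fun i x =>
      (if τ i = 0 then f i x.1 else 0) +
        ∑ t ∈ Finset.Ico 1 r, (if τ i = t then f i x.1 else 0) := by
    funext i x
    rcases hτ i with h | h
    · rw [if_pos h, Finset.sum_eq_zero, add_zero]
      intro t ht
      rw [if_neg]
      rw [Finset.mem_Ico] at ht
      omega
    · rw [if_neg (by rw [Finset.mem_Ico] at h; omega), zero_add, Finset.sum_ite_eq, if_pos h]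
  have bdt : ∀ (t : ℕ) (i : Fin n), Bd (fun x : Ball p d => if τ i = t then f i x.1 else 0) := by
    intro t i
    obtain ⟨M, hM⟩ := fB i
    refine ⟨max M 0, fun x => ?_⟩
    split_ifs
    · exact (hM x.1 x.2).trans (le_max_left _ _)
    · rw [abs_zero]
      exact le_max_right _ _
  have hN : ∀ i, 0 ≤ ballNorm p (f i) := fun i => (fB i).norm_nonneg hp0
  set N : ℝ := Real.sqrt (∑ i, ballNorm p (f i) ^ 2) with hNdef
  -- atoms
  have hatom : EA (fun (i : Fin n) (x : Ball p d) => if τ i = 0 then f i x.1 else 0) ≤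
      A * DD p d * N := by
    have h2 := hA m p hp hm d n hd (fun i x => if τ i = 0 then f i x else 0) (fun i => by
      by_cases h3 : τ i = 0
      · simp only [h3, if_true]
        exact h0 i h3
      · left
        funext x
        simp only [h3, if_false])
    refine h2.trans (mul_le_mul_of_nonneg_left ?_ (mul_nonneg hA0 hD))
    refine Real.sqrt_le_sqrt (Finset.sum_le_sum fun i _ => ?_)
    by_cases h3 : τ i = 0
    · simp only [h3, if_true]
      exact le_rfl
    · simp only [h3, if_false]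
      rw [ballNorm_zero hp0]
      have := sq_nonneg (ballNorm p (f i))
      simpa using this
  -- products
  have hprod : ∀ t ∈ Finset.Ico 1 r,
      EA (fun (i : Fin n) (x : Ball p d) => if τ i = t then f i x.1 else 0) ≤
      (4 * C t + 4 * C (r - t)) * K t (r - t) * (DD p d * N) := by
    intro t ht
    rw [Finset.mem_Ico] at ht
    set F' : Fin n → (Fin d → ℝ) → ℝ := fun i => if τ i = t then F i else fun _ => 0 with hF'
    set H' : Fin n → (Fin d → ℝ) → ℝ := fun i => if τ i = t then H i else fun _ => 0 with hH'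
    have hF1 : ∀ i, F' i = (fun _ => 0) ∨ ProdForm m t (F' i) := by
      intro i
      by_cases h3 : τ i = t
      · right
        have h4 := (h1 i (by omega)).1
        simp only [hF', h3, if_true]
        rwa [h3] at h4
      · left
        simp only [hF', h3, if_false]
    have hH1 : ∀ i, H' i = (fun _ => 0) ∨ ProdForm m (r - t) (H' i) := by
      intro i
      by_cases h3 : τ i = t
      · right
        have h4 := (h1 i (by omega)).2.1
        simp only [hH', h3, if_true]
        rwa [h3] at h4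
      · left
        simp only [hH', h3, if_false]
    have hFB : ∀ i, BdB p (F' i) := fun i => by
      rcases hF1 i with h | h
      · rw [h]
        exact ⟨0, fun x _ => by simp⟩
      · exact h.bdB hp0
    have hHB : ∀ i, BdB p (H' i) := fun i => by
      rcases hH1 i with h | h
      · rw [h]
        exact ⟨0, fun x _ => by simp⟩
      · exact h.bdB hp0
    have hF0 : ∀ i, F' i 0 = 0 := fun i => by
      rcases hF1 i with h | h
      · rw [h]
      · exact h.zero_at
    have hH0 : ∀ i, H' i 0 = 0 := fun i => by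
      rcases hH1 i with h | h
      · rw [h]
      · exact h.zero_at
    have e1 : (fun (i : Fin n) (x : Ball p d) => if τ i = t then f i x.1 else 0) =
        fun i x => F' i x.1 * H' i x.1 := by
      funext i x
      by_cases h3 : τ i = t
      · simp only [hF', hH', h3, if_true]
        rw [(h1 i (by omega)).2.2]
      · simp only [hF', hH', h3, if_false, mul_zero]
    rw [e1]
    have h2 := EA_mul_le (f := fun i (x : Ball p d) => F' i x.1)
      (h := fun i (x : Ball p d) => H' i x.1) (α := fun i => ballNorm p (F' i))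
      (β := fun i => ballNorm p (H' i)) (fun i x => (hFB i).le_norm x.2)
      (fun i x => (hHB i).le_norm x.2) ⟨0, ball_zero hp0⟩ hF0 hH0
    refine h2.trans ?_
    -- the product of the norms
    have hK1 : ∀ i, ballNorm p (F' i) * ballNorm p (H' i) ≤ K t (r - t) * ballNorm p (f i) := by
      intro i
      by_cases h3 : τ i = t
      · have h4 := h1 i (by omega)
        rw [h3] at h4
        have h5 := hK t (r - t) m p hp d _ _ h4.1 h4.2.1
        rw [← h4.2.2] at h5
        simp only [hF', hH', h3, if_true]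
        exact h5
      · simp only [hF', hH', h3, if_false]
        rw [ballNorm_zero hp0, zero_mul]
        exact mul_nonneg (hK0 _ _) (hN i)
    have hcl : ∀ (c : Fin n → ℝ) (G : Fin n → (Fin d → ℝ) → ℝ) (s : ℕ), s < r →
        (∀ i, G i = (fun _ => 0) ∨ ProdForm m s (G i)) → (∀ i, 0 ≤ c i) →
        (∀ i, c i * ballNorm p (G i) ≤ K t (r - t) * ballNorm p (f i)) →
        EA (fun i (x : Ball p d) => c i * G i x.1) ≤ C s * DD p d * (K t (r - t) * N) := by
      intro c G s hs hG hc hle
      have hGB : ∀ i, BdB p (G i) := fun i => by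
        rcases hG i with h | h
        · rw [h]
          exact ⟨0, fun x _ => by simp⟩
        · exact h.bdB hp0
      have h3 := hC s hs m p hp hm d n hd (fun i x => c i * G i x) (fun i => by
        rcases hG i with h | h
        · left
          rw [h]
          funext x
          simp
        · right
          exact h.smul (c i))
      refine h3.trans (mul_le_mul_of_nonneg_left ?_ (mul_nonneg (hC0 s) hD))
      have h4 : ∀ i, 0 ≤ ballNorm p (fun x => c i * G i x) := fun i => by
        obtain ⟨M, hM⟩ := hGB i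
        refine BdB.norm_nonneg hp0 ⟨|c i| * M, fun x hx => ?_⟩
        rw [abs_mul]
        exact mul_le_mul_of_nonneg_left (hM x hx) (abs_nonneg _)
      refine sqrt_sum_le (hK0 _ _) h4 (fun i => ?_) hN
      have h5 := ballNorm_smul hp0 (hGB i) (c i)
      rw [abs_of_nonneg (hc i)] at h5
      exact h5.trans (hle i)
    have h3 := hcl (fun i => ballNorm p (H' i)) F' t (by omega) hF1
      (fun i => (hHB i).norm_nonneg hp0) (fun i => by rw [mul_comm]; exact hK1 i)
    have h4 := hcl (fun i => ballNorm p (F' i)) H' (r - t) (by omega) hH1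
      (fun i => (hFB i).norm_nonneg hp0) hK1
    calc _ ≤ 4 * (C t * DD p d * (K t (r - t) * N)) +
          4 * (C (r - t) * DD p d * (K t (r - t) * N)) := by linarith
      _ = _ := by ring
  rw [hsplit]
  have hs1 := EA_add_le (f := fun (i : Fin n) (x : Ball p d) => if τ i = 0 then f i x.1 else 0)
    (h := fun i x => ∑ t ∈ Finset.Ico 1 r, (if τ i = t then f i x.1 else 0)) (bdt 0) (fun i => by
      obtain ⟨M, hM⟩ := fB i
      refine ⟨max M 0, fun x => ?_⟩
      change |∑ t ∈ Finset.Ico 1 r, (if τ i = t then f i x.1 else 0)| ≤ max M 0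
      by_cases h3 : τ i ∈ Finset.Ico 1 r
      · rw [Finset.sum_ite_eq, if_pos h3]
        exact (hM x.1 x.2).trans (le_max_left _ _)
      · rw [Finset.sum_ite_eq, if_neg h3, abs_zero]
        exact le_max_right _ _)
  have hs2 := EA_sum_le (Finset.Ico 1 r)
    (fun t (i : Fin n) (x : Ball p d) => if τ i = t then f i x.1 else 0) bdt
  have hs3 := Finset.sum_le_sum hprod
  rw [← Finset.sum_mul] at hs3
  calc _ ≤ _ := hs1
    _ ≤ A * DD p d * N + (∑ t ∈ Finset.Ico 1 r, (4 * C t + 4 * C (r - t)) * K t (r - t)) *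
        (DD p d * N) := add_le_add hatom (hs2.trans hs3)
    _ = _ := by ring

end Pool.Agent.RedF
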